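import Pool.Agent.Lib.MP_6d8312_an.Q.Cs

/-! # The average of the numerator -/

set_option autoImplicit false

noncomputable section

namespace Pool.Agent.Lib.MP_6d8312_an.Q

theorem norm_om_le {K : ℕ} (X : Fin K → ZMod 8) : ‖om X‖ ≤ 2 ^ K := by
  rw [om, norm_prod]
  calc ∏ κ, ‖1 - Complex.I * (cs (X κ) : ℂ)‖ ≤ ∏ _κ : Fin K, (2 : ℝ) := by
        refine Finset.prod_le_prod (fun _ _ => norm_nonneg _) fun κ _ => ?_
        refine (norm_sub_le _ _).trans ?_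
        rw [norm_one, norm_mul, Complex.norm_I, one_mul, Complex.norm_real, Real.norm_eq_abs]
        have := abs_cs_le (X κ)
        linarith
    _ = 2 ^ K := by simp

private theorem AvgNum_exp {K : ℕ} (Z : Fin K → ZMod 8) :
    Complex.exp (Complex.I * (ph Z : ℂ)) =
      ∏ κ, Complex.exp (Complex.I * (((1 / 2) * cs (Z κ) : ℝ) : ℂ)) := by
  rw [← Complex.exp_sum, ph]
  congr 1
  rw [Finset.mul_sum, Complex.ofReal_sum, Finset.mul_sum]

theorem avg_num {K : ℕ} (X₀ : Fin K → ZMod 8) :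
    ∑ Z : Fin K → ZMod 8, om (fun κ => Z κ + X₀ κ) *
      Complex.exp (Complex.I * (ph (fun κ => Z κ + X₀ κ) : ℂ)) = 8 ^ K * (gain : ℂ) ^ K := by
  have h1 : ∑ Z : Fin K → ZMod 8, om (fun κ => Z κ + X₀ κ) *
      Complex.exp (Complex.I * (ph (fun κ => Z κ + X₀ κ) : ℂ)) =
      ∑ Z : Fin K → ZMod 8, om Z * Complex.exp (Complex.I * (ph Z : ℂ)) :=
    Equiv.sum_comp (Equiv.addRight X₀) (fun Z => om Z * Complex.exp (Complex.I * (ph Z : ℂ)))
  have h2 : ∀ Z : Fin K → ZMod 8, om Z * Complex.exp (Complex.I * (ph Z : ℂ)) =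
      ∏ κ, ((1 - Complex.I * (cs (Z κ) : ℂ)) *
        Complex.exp (Complex.I * (((1 / 2) * cs (Z κ) : ℝ) : ℂ))) := by
    intro Z
    rw [AvgNum_exp, om, Finset.prod_mul_distrib]
  rw [h1, Finset.sum_congr rfl fun Z _ => h2 Z, ← mul_pow, ← sum_gain]
  exact (Fintype.sum_pow (fun x : ZMod 8 => (1 - Complex.I * (cs x : ℂ)) *
    Complex.exp (Complex.I * (((1 / 2) * cs x : ℝ) : ℂ))) K).symm

end Pool.Agent.Lib.MP_6d8312_an.Q
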