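import Pool.Agent.Lib.MP_6d8312_an.Mg.G001

/-! # The eight-point cosine -/

set_option autoImplicit false

noncomputable section

namespace Pool.Agent.Lib.MP_6d8312_an.Q

theorem abs_cs_le (x : ZMod 8) : |cs x| ≤ 1 := Real.abs_cos_le_one _

/-- The eight-point sine. -/
private def Cs_sn (x : ZMod 8) : ℝ := Real.sin (2 * Real.pi * (x.val / 8))

private theorem Cs_sum8 (f : ZMod 8 → ℝ) :
    ∑ x : ZMod 8, f x = f 0 + f 1 + f 2 + f 3 + f 4 + f 5 + f 6 + f 7 :=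
  Fin.sum_univ_eight (M := ℝ) f

private theorem Cs_cos_mod (m : ℕ) :
    Real.cos (2 * Real.pi * (((m % 8 : ℕ) : ℝ) / 8)) = Real.cos (2 * Real.pi * ((m : ℝ) / 8)) := by
  have h : (m : ℝ) = ((m % 8 : ℕ) : ℝ) + 8 * ((m / 8 : ℕ) : ℝ) := by
    exact_mod_cast (Nat.mod_add_div m 8).symm
  rw [← Real.cos_add_nat_mul_two_pi (2 * Real.pi * (((m % 8 : ℕ) : ℝ) / 8)) (m / 8)]
  congr 1
  conv_rhs => rw [h]
  ring

private theorem Cs_natCast (m : ℕ) : cs (m : ZMod 8) = Real.cos (2 * Real.pi * ((m : ℝ) / 8)) := by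
  rw [cs, ZMod.val_natCast, Cs_cos_mod]

private theorem Cs_v0 : cs 0 = 1 := by
  have h := Cs_natCast 0
  rw [Nat.cast_zero] at h
  rw [h]
  simp

private theorem Cs_add (x η : ZMod 8) : cs (x + η) = cs x * cs η - Cs_sn x * Cs_sn η := by
  have h : cs (x + η) = Real.cos (2 * Real.pi * (((x.val + η.val : ℕ) : ℝ) / 8)) := by
    rw [cs, ZMod.val_add, Cs_cos_mod]
  rw [h, cs, cs, Cs_sn, Cs_sn, ← Real.cos_add]
  congr 1
  push_cast
  ring

private theorem Cs_four : cs (4 : ZMod 8) = -1 := by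
  have h := Cs_natCast 4
  have h2 : ((4 : ℕ) : ZMod 8) = 4 := rfl
  rw [h2] at h
  rw [h]
  have h3 : 2 * Real.pi * (((4 : ℕ) : ℝ) / 8) = Real.pi := by
    push_cast
    ring
  rw [h3, Real.cos_pi]

private theorem Cs_sn_four : Cs_sn (4 : ZMod 8) = 0 := by
  have h2 : (4 : ZMod 8).val = 4 := rfl
  have h3 : 2 * Real.pi * (((4 : ℕ) : ℝ) / 8) = Real.pi := by
    push_cast
    ring
  rw [Cs_sn, h2, h3, Real.sin_pi]

private theorem Cs_two : cs (2 : ZMod 8) = 0 := by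
  have h2 : (2 : ZMod 8).val = 2 := rfl
  have h3 : 2 * Real.pi * (((2 : ℕ) : ℝ) / 8) = Real.pi / 2 := by
    push_cast
    ring
  rw [cs, h2, h3, Real.cos_pi_div_two]

private theorem Cs_sn_two : Cs_sn (2 : ZMod 8) = 1 := by
  have h2 : (2 : ZMod 8).val = 2 := rfl
  have h3 : 2 * Real.pi * (((2 : ℕ) : ℝ) / 8) = Real.pi / 2 := by
    push_cast
    ring
  rw [Cs_sn, h2, h3, Real.sin_pi_div_two]

private theorem Cs_add_four (x : ZMod 8) : cs (x + 4) = -cs x := by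
  rw [Cs_add, Cs_four, Cs_sn_four]
  ring

private theorem Cs_add_two (x : ZMod 8) : cs (x + 2) = -Cs_sn x := by
  rw [Cs_add, Cs_two, Cs_sn_two]
  ring

private theorem Cs_odd {M : Type} [AddCommGroup M] [IsAddTorsionFree M] (g : ℝ → M)
    (hg : ∀ c, g (-c) = -g c) : ∑ x : ZMod 8, g (cs x) = 0 := by
  have h1 : ∑ x : ZMod 8, g (cs (x + 4)) = ∑ x : ZMod 8, g (cs x) :=
    Equiv.sum_comp (Equiv.addRight (4 : ZMod 8)) (fun x => g (cs x))
  have h2 : ∑ x : ZMod 8, g (cs (x + 4)) = -∑ x : ZMod 8, g (cs x) := by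
    rw [← Finset.sum_neg_distrib]
    exact Finset.sum_congr rfl fun x _ => by rw [Cs_add_four, hg]
  exact self_eq_neg.1 (h1.symm.trans h2)

theorem sum_cs : ∑ x : ZMod 8, cs x = 0 := Cs_odd (fun c => c) (fun _ => rfl)

private theorem Cs_sq_add (x : ZMod 8) : cs x ^ 2 + Cs_sn x ^ 2 = 1 := by
  rw [cs, Cs_sn]
  exact Real.cos_sq_add_sin_sq _

private theorem Cs_sum_sq : ∑ x : ZMod 8, cs x ^ 2 = 4 := by
  have h1 : ∑ x : ZMod 8, cs (x + 2) ^ 2 = ∑ x : ZMod 8, cs x ^ 2 :=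
    Equiv.sum_comp (Equiv.addRight (2 : ZMod 8)) (fun x => cs x ^ 2)
  have h2 : ∑ x : ZMod 8, (cs x ^ 2 + cs (x + 2) ^ 2) = 8 := by
    have h3 : ∀ x : ZMod 8, cs x ^ 2 + cs (x + 2) ^ 2 = 1 := by
      intro x
      rw [Cs_add_two, neg_sq, Cs_sq_add]
    rw [Finset.sum_congr rfl fun x _ => h3 x]
    simp
  rw [Finset.sum_add_distrib, h1] at h2
  linarith

private theorem Cs_sum_mul_sn : ∑ x : ZMod 8, cs x * Cs_sn x = 0 := by
  have h1 : ∑ x : ZMod 8, cs (x + 2) * cs (x + 4) = ∑ x : ZMod 8, cs x * cs (x + 2) := by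
    have h := Equiv.sum_comp (Equiv.addRight (2 : ZMod 8)) (fun x => cs x * cs (x + 2))
    rw [← h]
    refine Finset.sum_congr rfl fun x _ => ?_
    change cs (x + 2) * cs (x + 4) = cs (x + 2) * cs (x + 2 + 2)
    rw [add_assoc x 2 2]
    rfl
  have h2 : ∑ x : ZMod 8, cs (x + 2) * cs (x + 4) = -∑ x : ZMod 8, cs x * cs (x + 2) := by
    rw [← Finset.sum_neg_distrib]
    exact Finset.sum_congr rfl fun x _ => by rw [Cs_add_four]; ring
  have h3 : ∑ x : ZMod 8, cs x * cs (x + 2) = 0 := by linarith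
  have h4 : ∑ x : ZMod 8, cs x * cs (x + 2) = -∑ x : ZMod 8, cs x * Cs_sn x := by
    rw [← Finset.sum_neg_distrib]
    exact Finset.sum_congr rfl fun x _ => by rw [Cs_add_two]; ring
  linarith

theorem sum_cs_mul (η : ZMod 8) : ∑ x : ZMod 8, cs (x + η) * cs x = 4 * cs η := by
  have h : ∀ x : ZMod 8, cs (x + η) * cs x = cs η * cs x ^ 2 - Cs_sn η * (cs x * Cs_sn x) := by
    intro x
    rw [Cs_add]
    ring
  rw [Finset.sum_congr rfl fun x _ => h x, Finset.sum_sub_distrib, ← Finset.mul_sum,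
    ← Finset.mul_sum, Cs_sum_sq, Cs_sum_mul_sn]
  ring

theorem sum_cs_sq : ∑ x : ZMod 8, (1 + (1 / 2) * cs x) ^ 2 = 9 := by
  have h : ∀ x : ZMod 8, (1 + (1 / 2) * cs x) ^ 2 = 1 + cs x + (1 / 4) * cs x ^ 2 := by
    intro x
    ring
  rw [Finset.sum_congr rfl fun x _ => h x, Finset.sum_add_distrib, Finset.sum_add_distrib,
    ← Finset.mul_sum, Cs_sum_sq, sum_cs]
  simp
  norm_num

theorem cs_sum (G : Finset ℤ) (f : ℤ → ZMod 8) :
    cs (∑ x ∈ G, f x) = Real.cos (2 * Real.pi * ∑ x ∈ G, (((f x).val : ℝ) / 8)) := by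
  have h1 : (∑ x ∈ G, f x) = ((∑ x ∈ G, (f x).val : ℕ) : ZMod 8) := by
    rw [Nat.cast_sum]
    exact Finset.sum_congr rfl fun x _ => (ZMod.natCast_zmod_val (f x)).symm
  rw [h1, Cs_natCast, ← Finset.sum_div]
  push_cast
  rfl

/-- The gain. -/
def gain : ℝ := (1 / 8) * ∑ x : ZMod 8,
  (Real.cos ((1 / 2) * cs x) + cs x * Real.sin ((1 / 2) * cs x))

private theorem Cs_term_nonneg (c : ℝ) (h0 : 0 ≤ c) (h1 : c ≤ 1) :
    1 + (11 / 32) * c ^ 2 ≤ Real.cos ((1 / 2) * c) + c * Real.sin ((1 / 2) * c) := by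
  have h2 := Real.one_sub_sq_div_two_le_cos (x := (1 / 2) * c)
  rcases h0.eq_or_lt with h | h
  · subst h
    simp
  · have h3 := Real.sin_gt_sub_cube (x := (1 / 2) * c) (by positivity)
    have h4 : c * ((1 / 2) * c - ((1 / 2) * c) ^ 3 / 6) ≤ c * Real.sin ((1 / 2) * c) :=
      mul_le_mul_of_nonneg_left h3.le h.le
    have h5 : c ^ 4 ≤ c ^ 2 := pow_le_pow_of_le_one h.le h1 (by norm_num)
    nlinarith

private theorem Cs_term (c : ℝ) (hc : |c| ≤ 1) :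
    1 + (11 / 32) * c ^ 2 ≤ Real.cos ((1 / 2) * c) + c * Real.sin ((1 / 2) * c) := by
  rcases le_total 0 c with h | h
  · exact Cs_term_nonneg c h (by rwa [abs_of_nonneg h] at hc)
  · have h1 := Cs_term_nonneg (-c) (by linarith) (by rwa [abs_of_nonpos h] at hc)
    rw [mul_neg, Real.cos_neg, Real.sin_neg, neg_sq] at h1
    linarith

theorem gain_ge : 7 / 6 ≤ gain := by
  have h1 : ∑ x : ZMod 8, (1 + (11 / 32) * cs x ^ 2) ≤
      ∑ x : ZMod 8, (Real.cos ((1 / 2) * cs x) + cs x * Real.sin ((1 / 2) * cs x)) :=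
    Finset.sum_le_sum fun x _ => Cs_term (cs x) (abs_cs_le x)
  have h2 : ∑ x : ZMod 8, (1 + (11 / 32) * cs x ^ 2) = 8 + (11 / 32) * 4 := by
    rw [Finset.sum_add_distrib, ← Finset.mul_sum, Cs_sum_sq]
    simp
  rw [gain]
  linarith

theorem sum_gain : ∑ x : ZMod 8, (1 - Complex.I * (cs x : ℂ)) *
    Complex.exp (Complex.I * (((1 / 2) * cs x : ℝ) : ℂ)) = 8 * (gain : ℂ) := by
  have h : ∀ x : ZMod 8, (1 - Complex.I * (cs x : ℂ)) *
      Complex.exp (Complex.I * (((1 / 2) * cs x : ℝ) : ℂ)) =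
      ((Real.cos ((1 / 2) * cs x) + cs x * Real.sin ((1 / 2) * cs x) : ℝ) : ℂ) +
      Complex.I * ((Real.sin ((1 / 2) * cs x) - cs x * Real.cos ((1 / 2) * cs x) : ℝ) : ℂ) := by
    intro x
    rw [mul_comm Complex.I (((1 / 2) * cs x : ℝ) : ℂ), Complex.exp_mul_I, ← Complex.ofReal_cos,
      ← Complex.ofReal_sin]
    push_cast
    linear_combination -((cs x : ℂ) * (Complex.sin (1 / 2 * (cs x : ℂ)))) * Complex.I_sq
  have h2 : ∑ x : ZMod 8, (Real.sin ((1 / 2) * cs x) - cs x * Real.cos ((1 / 2) * cs x)) = 0 :=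
    Cs_odd (fun c => Real.sin ((1 / 2) * c) - c * Real.cos ((1 / 2) * c)) (fun c => by
      rw [mul_neg, Real.sin_neg, Real.cos_neg]
      ring)
  rw [Finset.sum_congr rfl fun x _ => h x, Finset.sum_add_distrib, ← Finset.mul_sum,
    ← Complex.ofReal_sum, ← Complex.ofReal_sum, h2, gain]
  push_cast
  ring

end Pool.Agent.Lib.MP_6d8312_an.Q
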