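import Mathlib

/-! # Hubs -/

set_option autoImplicit false

noncomputable section

namespace Pool.Agent.Lib.MP_6d8312_an.Q

/-- The constant. -/
def hubC (j a : ℕ) : ℕ := 2 * j * (4 * j ^ 2 * a) ^ (4 * j)

/-- the degree of a point -/
private def hubDeg {α : Type} [DecidableEq α] (V : Finset α) (S : α → Finset α) (v : α) : ℕ :=
  (V.filter (fun x => v ∈ S x)).card

private theorem hub_sum {α : Type} [DecidableEq α] (V : Finset α) (S : α → Finset α) (j : ℕ)
    (hS : ∀ x ∈ V, x ∈ S x ∧ S x ⊆ V ∧ (S x).card ≤ j) :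
    ∑ v ∈ V, hubDeg V S v ≤ j * V.card := by
  unfold hubDeg
  simp_rw [Finset.card_filter]
  rw [Finset.sum_comm, mul_comm, ← smul_eq_mul]
  refine Finset.sum_le_card_nsmul _ _ _ ?_
  intro x hx
  rw [← Finset.card_filter]
  refine le_trans (Finset.card_le_card ?_) (hS x hx).2.2
  intro v hv
  exact (Finset.mem_filter.1 hv).2

/-- a good scale -/
private theorem hub_scale {α : Type} [DecidableEq α] (V : Finset α) (hV : V.Nonempty)
    (S : α → Finset α) (j b : ℕ) (hj : 1 ≤ j) (hb : 1 ≤ b)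
    (hS : ∀ x ∈ V, x ∈ S x ∧ S x ⊆ V ∧ (S x).card ≤ j) :
    ∃ r < 4 * j, 4 * ∑ v ∈ V.filter (fun v => b ^ r ≤ hubDeg V S v ∧ hubDeg V S v < b ^ (r + 1)),
      hubDeg V S v ≤ V.card := by
  classical
  by_contra hcon
  push Not at hcon
  have h1 : ∑ r ∈ Finset.range (4 * j), ∑ v ∈ V.filter (fun v => b ^ r ≤ hubDeg V S v ∧
      hubDeg V S v < b ^ (r + 1)), hubDeg V S v ≤ ∑ v ∈ V, hubDeg V S v := by
    rw [← Finset.sum_biUnion]
    · refine Finset.sum_le_sum_of_subset ?_
      intro v hv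
      rw [Finset.mem_biUnion] at hv
      obtain ⟨r, _, hv⟩ := hv
      exact (Finset.mem_filter.1 hv).1
    · intro r _ r' _ hrr'
      rw [Function.onFun, Finset.disjoint_left]
      intro v hv hv'
      rw [Finset.mem_filter] at hv hv'
      rcases lt_or_gt_of_ne hrr' with h | h
      · have := Nat.pow_le_pow_right hb (show r + 1 ≤ r' by omega)
        omega
      · have := Nat.pow_le_pow_right hb (show r' + 1 ≤ r by omega)
        omega
  have h2 : (4 * j) * (V.card + 1) ≤ ∑ r ∈ Finset.range (4 * j), 4 * ∑ v ∈ V.filter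
      (fun v => b ^ r ≤ hubDeg V S v ∧ hubDeg V S v < b ^ (r + 1)), hubDeg V S v := by
    have h3 := Finset.card_nsmul_le_sum (Finset.range (4 * j)) (fun r => 4 * ∑ v ∈ V.filter
      (fun v => b ^ r ≤ hubDeg V S v ∧ hubDeg V S v < b ^ (r + 1)), hubDeg V S v) (V.card + 1)
      (fun r hr => hcon r (Finset.mem_range.1 hr))
    simpa [Finset.card_range] using h3
  rw [← Finset.mul_sum] at h2
  have h4 := hub_sum V S j hS
  have h5 : 4 * j * (V.card + 1) ≤ 4 * (j * V.card) := h2.trans (Nat.mul_le_mul_left 4 (h1.trans h4))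
  nlinarith

theorem exists_hub {α : Type} [DecidableEq α] (V : Finset α) (hV : V.Nonempty)
    (S : α → Finset α) (j a : ℕ) (hj : 1 ≤ j) (ha : 1 ≤ a)
    (hS : ∀ x ∈ V, x ∈ S x ∧ S x ⊆ V ∧ (S x).card ≤ j) :
    ∃ B I : Finset α, B ⊆ V ∧ I ⊆ V ∧ I.Nonempty ∧ (∀ i ∈ I, i ∉ B) ∧
      (∀ i ∈ I, ∀ i' ∈ I, i ≠ i' → Disjoint (S i \ B) (S i' \ B)) ∧
      V.card ≤ hubC j a * I.card ∧ a * B.card ≤ I.card := by
  set b : ℕ := 4 * j ^ 2 * a with hbdef
  have hb : 1 ≤ b := by
    have : 0 < 4 * j ^ 2 * a := by positivity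
    omega
  have hb4 : 4 * j ≤ b := by
    rw [hbdef]
    nlinarith [Nat.mul_le_mul hj ha, Nat.mul_le_mul (Nat.mul_le_mul hj hj) ha]
  obtain ⟨r, hr, hP⟩ := hub_scale V hV S j b hj hb hS
  set deg := hubDeg V S with hdeg
  set B : Finset α := V.filter (fun v => b ^ (r + 1) ≤ deg v) with hB
  set Bad : Finset α := V.filter (fun x => ∃ v ∈ S x, b ^ r ≤ deg v ∧ deg v < b ^ (r + 1)) with hBad
  have hBsum : B.card * b ^ (r + 1) ≤ j * V.card := by
    calc B.card * b ^ (r + 1) = B.card • b ^ (r + 1) := by rw [smul_eq_mul]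
      _ ≤ ∑ v ∈ B, deg v := Finset.card_nsmul_le_sum _ _ _ fun v hv => (Finset.mem_filter.1 hv).2
      _ ≤ ∑ v ∈ V, deg v := Finset.sum_le_sum_of_subset (Finset.filter_subset _ _)
      _ ≤ j * V.card := hub_sum V S j hS
  have hB4 : 4 * B.card ≤ V.card := by
    have h1 : b ≤ b ^ (r + 1) := by
      calc b = b ^ 1 := (pow_one b).symm
        _ ≤ b ^ (r + 1) := Nat.pow_le_pow_right hb (by omega)
    have h2 : j * (4 * B.card) ≤ j * V.card := by
      calc j * (4 * B.card) = B.card * (4 * j) := by ring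
        _ ≤ B.card * b ^ (r + 1) := Nat.mul_le_mul_left _ (hb4.trans h1)
        _ ≤ j * V.card := hBsum
    exact Nat.le_of_mul_le_mul_left h2 (by omega)
  have hBad4 : 4 * Bad.card ≤ V.card := by
    refine le_trans (Nat.mul_le_mul_left 4 ?_) hP
    have h1 : Bad ⊆ (V.filter (fun v => b ^ r ≤ deg v ∧ deg v < b ^ (r + 1))).biUnion
        (fun v => V.filter (fun x => v ∈ S x)) := by
      intro x hx
      rw [hBad, Finset.mem_filter] at hx
      obtain ⟨hxV, v, hv, hv2⟩ := hx
      rw [Finset.mem_biUnion]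
      exact ⟨v, Finset.mem_filter.2 ⟨(hS x hxV).2.1 hv, hv2⟩, Finset.mem_filter.2 ⟨hxV, hv⟩⟩
    exact (Finset.card_le_card h1).trans Finset.card_biUnion_le
  set X : Finset α := V \ (B ∪ Bad) with hX
  have hX2 : V.card ≤ 2 * X.card := by
    have h1 : V.card ≤ X.card + (B ∪ Bad).card := by
      have := Finset.card_le_card_sdiff_add_card (s := V) (t := B ∪ Bad)
      rw [hX]
      omega
    have h2 := Finset.card_union_le B Bad
    omega
  have hne : (X.powerset.filter (fun I => ∀ i ∈ I, ∀ i' ∈ I, i ≠ i' →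
      Disjoint (S i \ B) (S i' \ B))).Nonempty := ⟨∅, by simp⟩
  obtain ⟨I, hI, hmax⟩ := Finset.exists_max_image _ Finset.card hne
  rw [Finset.mem_filter, Finset.mem_powerset] at hI
  have hIV : I ⊆ V := fun i hi => (Finset.mem_sdiff.1 (hI.1 hi)).1
  set W : Finset α := I.biUnion (fun i => S i \ B) with hW
  have hWcard : W.card ≤ I.card * j := by
    refine Finset.card_biUnion_le_card_mul _ _ _ ?_
    intro i hi
    exact (Finset.card_le_card Finset.sdiff_subset).trans (hS i (hIV hi)).2.2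
  have hWdeg : ∀ v ∈ W, deg v ≤ b ^ r := by
    intro v hv
    rw [hW, Finset.mem_biUnion] at hv
    obtain ⟨i, hi, hv⟩ := hv
    rw [Finset.mem_sdiff] at hv
    have hvV := (hS i (hIV hi)).2.1 hv.1
    have h1 : deg v < b ^ (r + 1) := by
      by_contra h2
      push Not at h2
      exact hv.2 (Finset.mem_filter.2 ⟨hvV, h2⟩)
    by_contra h2
    push Not at h2
    have h3 := hI.1 hi
    rw [hX, Finset.mem_sdiff, Finset.mem_union] at h3
    exact h3.2 (Or.inr (Finset.mem_filter.2 ⟨hIV hi, v, hv.1, h2.le, h1⟩))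
  have hXcov : ∀ x ∈ X, ∃ v ∈ W, v ∈ S x := by
    intro x hx
    have hxV : x ∈ V := (Finset.mem_sdiff.1 hx).1
    have hxB : x ∉ B := fun h => (Finset.mem_sdiff.1 hx).2 (Finset.mem_union_left _ h)
    by_contra hcon
    push Not at hcon
    have hxI : x ∉ I := by
      intro hxI
      refine hcon x ?_ (hS x hxV).1
      rw [hW, Finset.mem_biUnion]
      exact ⟨x, hxI, Finset.mem_sdiff.2 ⟨(hS x hxV).1, hxB⟩⟩
    have hdis : ∀ i ∈ I, Disjoint (S x \ B) (S i \ B) := by
      intro i hi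
      rw [Finset.disjoint_left]
      intro v hv hv'
      refine hcon v ?_ (Finset.mem_sdiff.1 hv).1
      rw [hW, Finset.mem_biUnion]
      exact ⟨i, hi, hv'⟩
    have hbig := hmax (insert x I) (by
      rw [Finset.mem_filter, Finset.mem_powerset]
      refine ⟨Finset.insert_subset hx hI.1, ?_⟩
      intro i hi i' hi' hii'
      rw [Finset.mem_insert] at hi hi'
      rcases hi with rfl | hi <;> rcases hi' with rfl | hi'
      · exact absurd rfl hii'
      · exact hdis _ hi'
      · exact (hdis _ hi).symm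
      · exact hI.2 i hi i' hi' hii')
    rw [Finset.card_insert_of_notMem hxI] at hbig
    omega
  have hXcard : X.card ≤ I.card * j * b ^ r := by
    have h1 : X ⊆ W.biUnion (fun v => V.filter (fun x => v ∈ S x)) := by
      intro x hx
      obtain ⟨v, hv, hvx⟩ := hXcov x hx
      rw [Finset.mem_biUnion]
      exact ⟨v, hv, Finset.mem_filter.2 ⟨(Finset.mem_sdiff.1 hx).1, hvx⟩⟩
    refine (Finset.card_le_card h1).trans ?_
    refine (Finset.card_biUnion_le_card_mul _ _ (b ^ r) fun v hv => hWdeg v hv).trans ?_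
    exact Nat.mul_le_mul_right _ hWcard
  have hVI : V.card ≤ 2 * j * b ^ r * I.card := by
    calc V.card ≤ 2 * X.card := hX2
      _ ≤ 2 * (I.card * j * b ^ r) := Nat.mul_le_mul_left 2 hXcard
      _ = 2 * j * b ^ r * I.card := by ring
  have hIne : I.Nonempty := by
    rw [← Finset.card_pos]
    by_contra h
    have h1 : I.card = 0 := by omega
    rw [h1, mul_zero] at hVI
    have := hV.card_pos
    omega
  refine ⟨B, I, Finset.filter_subset _ _, hIV, hIne, ?_, hI.2, ?_, ?_⟩
  · intro i hi hiB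
    exact (Finset.mem_sdiff.1 (hI.1 hi)).2 (Finset.mem_union_left _ hiB)
  · refine hVI.trans (Nat.mul_le_mul_right _ ?_)
    unfold hubC
    exact Nat.mul_le_mul_left _ (Nat.pow_le_pow_right hb hr.le)
  · have h1 : b ^ r * (B.card * b) ≤ b ^ r * (2 * j ^ 2 * I.card) := by
      calc b ^ r * (B.card * b) = B.card * b ^ (r + 1) := by ring
        _ ≤ j * V.card := hBsum
        _ ≤ j * (2 * j * b ^ r * I.card) := Nat.mul_le_mul_left j hVI
        _ = b ^ r * (2 * j ^ 2 * I.card) := by ring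
    have h2 : B.card * b ≤ 2 * j ^ 2 * I.card := Nat.le_of_mul_le_mul_left h1 (by positivity)
    have h3 : (2 * j ^ 2) * (2 * (a * B.card)) ≤ (2 * j ^ 2) * I.card := by
      calc (2 * j ^ 2) * (2 * (a * B.card)) = B.card * b := by rw [hbdef]; ring
        _ ≤ _ := h2
    have h4 : 2 * (a * B.card) ≤ I.card := Nat.le_of_mul_le_mul_left h3 (by positivity)
    omega

end Pool.Agent.Lib.MP_6d8312_an.Q
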