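import Mathlib

/-! # Sets whose link contains a large matching -/

set_option autoImplicit false

noncomputable section

namespace Pool.Agent.Lib.MP_6d8312_an.Q

/-- the degree of a set -/
private def richDeg {α : Type} [DecidableEq α] (H : Finset (Finset α)) (S : Finset α) : ℕ :=
  (H.filter (fun T => S ⊆ T)).card

private theorem rich_aux {α : Type} [DecidableEq α] (H : Finset (Finset α)) (j m n : ℕ)
    (hm : 1 ≤ m) (hH : ∀ T ∈ H, T.card = j) (S : Finset α) (hSn : S.card = n) (hnj : n < j)
    (h1 : 2 * (j * m) ^ (j - n) ≤ richDeg H S)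
    (h2 : ∀ y, y ∉ S → richDeg H (insert y S) < 2 * (j * m) ^ (j - (n + 1))) :
    ∃ M : Finset (Finset α), M.card = m ∧
      (∀ T ∈ M, T.card + S.card = j ∧ Disjoint S T ∧ S ∪ T ∈ H) ∧
      ∀ T ∈ M, ∀ T' ∈ M, T ≠ T' → Disjoint T T' := by
  classical
  set L : Finset (Finset α) := (H.filter (fun T => S ⊆ T)).image (fun T => T \ S) with hL
  have hLprop : ∀ T ∈ L, T.card + S.card = j ∧ Disjoint S T ∧ S ∪ T ∈ H := by
    intro T hT
    rw [hL, Finset.mem_image] at hT
    obtain ⟨T', hT', rfl⟩ := hT
    rw [Finset.mem_filter] at hT'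
    refine ⟨?_, Finset.disjoint_sdiff, ?_⟩
    · rw [Finset.card_sdiff_add_card_eq_card hT'.2]
      exact hH T' hT'.1
    · rw [Finset.union_sdiff_of_subset hT'.2]
      exact hT'.1
  have hne : (L.powerset.filter (fun M => ∀ T ∈ M, ∀ T' ∈ M, T ≠ T' → Disjoint T T')).Nonempty :=
    ⟨∅, by simp⟩
  obtain ⟨M0, hM0, hmax⟩ := Finset.exists_max_image _ Finset.card hne
  rw [Finset.mem_filter, Finset.mem_powerset] at hM0
  by_cases hcard : m ≤ M0.card
  · obtain ⟨M, hM, hMc⟩ := Finset.exists_subset_card_eq hcard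
    exact ⟨M, hMc, fun T hT => hLprop T (hM0.1 (hM hT)),
      fun T hT T' hT' hne => hM0.2 T (hM hT) T' (hM hT') hne⟩
  · exfalso
    push Not at hcard
    set U : Finset α := M0.biUnion id with hU
    have hUcard : U.card ≤ M0.card * j := by
      refine Finset.card_biUnion_le_card_mul _ _ _ ?_
      intro T hT
      have := (hLprop T (hM0.1 hT)).1
      simp only [id]
      omega
    have hUS : ∀ y ∈ U, y ∉ S := by
      intro y hy hyS
      rw [hU, Finset.mem_biUnion] at hy
      obtain ⟨T, hT, hyT⟩ := hy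
      exact Finset.disjoint_left.1 (hLprop T (hM0.1 hT)).2.1 hyS hyT
    have hmeet : ∀ T ∈ H, S ⊆ T → ∃ y ∈ U, insert y S ⊆ T := by
      intro T hT hST
      by_contra hcon
      push Not at hcon
      have hdis : ∀ T' ∈ M0, Disjoint (T \ S) T' := by
        intro T' hT'
        rw [Finset.disjoint_left]
        intro y hy hy'
        refine hcon y ?_ ?_
        · rw [hU, Finset.mem_biUnion]
          exact ⟨T', hT', hy'⟩
        · rw [Finset.insert_subset_iff]
          exact ⟨(Finset.mem_sdiff.1 hy).1, hST⟩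
      have hTL : T \ S ∈ L := by
        rw [hL, Finset.mem_image]
        exact ⟨T, Finset.mem_filter.2 ⟨hT, hST⟩, rfl⟩
      have hnonempty : (T \ S).Nonempty := by
        rw [← Finset.card_pos]
        have := (hLprop _ hTL).1
        omega
      have hnot : T \ S ∉ M0 := by
        intro hmem
        have := hdis _ hmem
        rw [disjoint_self] at this
        rw [Finset.nonempty_iff_ne_empty] at hnonempty
        exact hnonempty this
      have hbig := hmax (insert (T \ S) M0) (by
        rw [Finset.mem_filter, Finset.mem_powerset]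
        refine ⟨Finset.insert_subset hTL hM0.1, ?_⟩
        intro A hA A' hA' hne
        rw [Finset.mem_insert] at hA hA'
        rcases hA with rfl | hA <;> rcases hA' with rfl | hA'
        · exact absurd rfl hne
        · exact hdis _ hA'
        · exact (hdis _ hA).symm
        · exact hM0.2 A hA A' hA' hne)
      rw [Finset.card_insert_of_notMem hnot] at hbig
      omega
    have hdeg : richDeg H S ≤ ∑ y ∈ U, richDeg H (insert y S) := by
      unfold richDeg
      refine le_trans (Finset.card_le_card ?_) Finset.card_biUnion_le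
      intro T hT
      rw [Finset.mem_filter] at hT
      obtain ⟨y, hy, hyT⟩ := hmeet T hT.1 hT.2
      rw [Finset.mem_biUnion]
      exact ⟨y, hy, Finset.mem_filter.2 ⟨hT.1, hyT⟩⟩
    have hsum : ∑ y ∈ U, richDeg H (insert y S) ≤ U.card * (2 * (j * m) ^ (j - (n + 1))) := by
      rw [← smul_eq_mul]
      exact Finset.sum_le_card_nsmul _ _ _ fun y hy => (h2 y (hUS y hy)).le
    have hpow : (j * m) ^ (j - n) = (j * m) * (j * m) ^ (j - (n + 1)) := by
      rw [← pow_succ']
      congr 1
      omega
    have hjm : 0 < j * m := Nat.mul_pos (by omega) (by omega)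
    have hpos : 0 < 2 * (j * m) ^ (j - (n + 1)) := Nat.mul_pos two_pos (Nat.pow_pos hjm)
    have hlt : U.card < j * m := by
      calc U.card ≤ M0.card * j := hUcard
        _ < m * j := Nat.mul_lt_mul_of_pos_right hcard (by omega)
        _ = j * m := by ring
    have : 2 * (j * m) ^ (j - n) < 2 * (j * m) ^ (j - n) := by
      calc 2 * (j * m) ^ (j - n) ≤ U.card * (2 * (j * m) ^ (j - (n + 1))) :=
            h1.trans (hdeg.trans hsum)
        _ < (j * m) * (2 * (j * m) ^ (j - (n + 1))) := Nat.mul_lt_mul_of_pos_right hlt hpos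
        _ = 2 * (j * m) ^ (j - n) := by rw [hpow]; ring
    exact lt_irrefl _ this

theorem exists_rich {α : Type} [DecidableEq α] (H : Finset (Finset α)) (j m : ℕ) (hj : 1 ≤ j)
    (hm : 1 ≤ m) (hH : ∀ T ∈ H, T.card = j) (x : α)
    (hx : 2 * (j * m) ^ (j - 1) ≤ (H.filter (fun T => x ∈ T)).card) :
    ∃ (S : Finset α) (M : Finset (Finset α)), x ∈ S ∧ S.card < j ∧ M.card = m ∧
      (∀ T ∈ M, T.card + S.card = j ∧ Disjoint S T ∧ S ∪ T ∈ H) ∧
      ∀ T ∈ M, ∀ T' ∈ M, T ≠ T' → Disjoint T T' := by
  classical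
  by_contra hcon
  have hP : ∀ n, 1 ≤ n → n ≤ j → ∃ S : Finset α, x ∈ S ∧ S.card = n ∧
      2 * (j * m) ^ (j - n) ≤ richDeg H S := by
    intro n hn
    induction n, hn using Nat.le_induction with
    | base =>
      intro _
      refine ⟨{x}, by simp, by simp, ?_⟩
      unfold richDeg
      simpa using hx
    | succ n hn ih =>
      intro hnj
      obtain ⟨S, hxS, hSn, hdeg⟩ := ih (by omega)
      by_contra hno
      push Not at hno
      obtain ⟨M, hM⟩ := rich_aux H j m n hm hH S hSn (by omega) hdeg (by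
        intro y hy
        refine hno (insert y S) (Finset.mem_insert_of_mem hxS) ?_
        rw [Finset.card_insert_of_notMem hy, hSn])
      exact hcon ⟨S, M, hxS, by omega, hM⟩
  obtain ⟨S, _, hSj, hdeg⟩ := hP j hj le_rfl
  rw [Nat.sub_self, pow_zero, mul_one] at hdeg
  have hle : richDeg H S ≤ 1 := by
    unfold richDeg
    rw [Finset.card_le_one]
    intro A hA B hB
    rw [Finset.mem_filter] at hA hB
    have h1 : S = A := Finset.eq_of_subset_of_card_le hA.2 (by rw [hH A hA.1, hSj])
    have h2 : S = B := Finset.eq_of_subset_of_card_le hB.2 (by rw [hH B hB.1, hSj])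
    rw [← h1, ← h2]
  omega

end Pool.Agent.Lib.MP_6d8312_an.Q
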