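import Pool.Agent.Lib.MP_6d8312_an.Q.Weights

/-! # A random subset that contains many members of each matching -/

set_option autoImplicit false

noncomputable section

namespace Pool.Agent.Lib.MP_6d8312_an.Q

open Finset

private theorem sample_P {α : Type} [DecidableEq α] (p : ℝ) (V U : Finset α) (h : U ⊆ V) :
    ∑ Q ∈ V.powerset, wt p V Q * (if U ⊆ Q then (1 : ℝ) else 0) = p ^ U.card := by
  have h1 := sum_wt p V U ∅ h (Finset.empty_subset _) (Finset.disjoint_empty_right _)
  simp only [Finset.disjoint_empty_left, and_true, Finset.card_empty, pow_zero, mul_one] at h1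
  rw [← h1, Finset.sum_filter]
  refine Finset.sum_congr rfl fun Q _ => ?_
  split_ifs <;> simp

private theorem sample_one {α : Type} [DecidableEq α] (p : ℝ) (V : Finset α) :
    ∑ Q ∈ V.powerset, wt p V Q = 1 := by
  have h1 := sample_P p V ∅ (Finset.empty_subset _)
  simpa using h1

private theorem sample_card {α : Type} [DecidableEq α] (p : ℝ) (V U : Finset α) (h : U ⊆ V) :
    ∑ Q ∈ V.powerset, wt p V Q * ((U ∩ Q).card : ℝ) = U.card * p := by
  have h1 : ∀ Q ∈ V.powerset, wt p V Q * ((U ∩ Q).card : ℝ) =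
      ∑ x ∈ U, wt p V Q * (if {x} ⊆ Q then (1 : ℝ) else 0) := by
    intro Q _
    rw [← Finset.mul_sum]
    congr 1
    rw [← Finset.filter_mem_eq_inter, Finset.card_filter]
    push_cast
    refine Finset.sum_congr rfl fun x _ => ?_
    simp only [Finset.singleton_subset_iff]
  rw [Finset.sum_congr rfl h1, Finset.sum_comm]
  have h2 : ∀ x ∈ U, ∑ Q ∈ V.powerset, wt p V Q * (if {x} ⊆ Q then (1 : ℝ) else 0) = p := by
    intro x hx
    rw [sample_P p V {x} (Finset.singleton_subset_iff.2 (h hx)), Finset.card_singleton, pow_one]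
  rw [Finset.sum_congr rfl h2, Finset.sum_const, nsmul_eq_mul]

/-- first and second moment of the number of members of a matching -/
private theorem sample_moment {α : Type} [DecidableEq α] (p : ℝ) (hp : 0 ≤ p) (V : Finset α)
    (M : Finset (Finset α)) (t : ℕ) (hM : ∀ T ∈ M, T ⊆ V ∧ T.card = t)
    (hd : ∀ T ∈ M, ∀ T' ∈ M, T ≠ T' → Disjoint T T') :
    ∑ Q ∈ V.powerset, wt p V Q * ((M.filter (fun T => T ⊆ Q)).card - M.card * p ^ t : ℝ) ^ 2 ≤
      M.card * p ^ t := by
  set μ : ℝ := M.card * p ^ t with hμ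
  have hμ0 : 0 ≤ μ := by positivity
  have hN : ∀ Q : Finset α, ((M.filter (fun T => T ⊆ Q)).card : ℝ) =
      ∑ T ∈ M, (if T ⊆ Q then (1 : ℝ) else 0) := by
    intro Q
    rw [Finset.card_filter]
    push_cast
    rfl
  have hE1 : ∑ Q ∈ V.powerset, wt p V Q * ((M.filter (fun T => T ⊆ Q)).card : ℝ) = μ := by
    simp_rw [hN, Finset.mul_sum]
    rw [Finset.sum_comm]
    have h1 : ∀ T ∈ M, ∑ Q ∈ V.powerset, wt p V Q * (if T ⊆ Q then (1 : ℝ) else 0) = p ^ t := by
      intro T hT
      rw [sample_P p V T (hM T hT).1, (hM T hT).2]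
    rw [Finset.sum_congr rfl h1, Finset.sum_const, nsmul_eq_mul]
  have hE2 : ∑ Q ∈ V.powerset, wt p V Q * ((M.filter (fun T => T ⊆ Q)).card : ℝ) ^ 2 ≤
      μ + μ ^ 2 := by
    have h1 : ∀ Q ∈ V.powerset, wt p V Q * ((M.filter (fun T => T ⊆ Q)).card : ℝ) ^ 2 =
        ∑ T ∈ M, ∑ T' ∈ M, wt p V Q * (if T ∪ T' ⊆ Q then (1 : ℝ) else 0) := by
      intro Q _
      rw [hN, sq, Finset.sum_mul_sum, Finset.mul_sum]
      refine Finset.sum_congr rfl fun T _ => ?_
      rw [Finset.mul_sum]
      refine Finset.sum_congr rfl fun T' _ => ?_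
      congr 1
      by_cases h1 : T ⊆ Q <;> by_cases h2 : T' ⊆ Q <;> simp [h1, h2, Finset.union_subset_iff]
    rw [Finset.sum_congr rfl h1, Finset.sum_comm]
    have h2 : ∀ T ∈ M, ∑ Q ∈ V.powerset, ∑ T' ∈ M, wt p V Q * (if T ∪ T' ⊆ Q then (1 : ℝ) else 0)
        ≤ p ^ t + M.card * (p ^ t * p ^ t) := by
      intro T hT
      rw [Finset.sum_comm, ← Finset.add_sum_erase M _ hT]
      refine add_le_add ?_ ?_
      · rw [Finset.union_self, sample_P p V T (hM T hT).1, (hM T hT).2]
      · have h3 : ∀ T' ∈ M.erase T, ∑ Q ∈ V.powerset, wt p V Q *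
            (if T ∪ T' ⊆ Q then (1 : ℝ) else 0) = p ^ t * p ^ t := by
          intro T' hT'
          rw [Finset.mem_erase] at hT'
          rw [sample_P p V (T ∪ T') (Finset.union_subset (hM T hT).1 (hM T' hT'.2).1),
            Finset.card_union_of_disjoint (hd T hT T' hT'.2 hT'.1.symm), (hM T hT).2,
            (hM T' hT'.2).2, pow_add]
        rw [Finset.sum_congr rfl h3, Finset.sum_const, nsmul_eq_mul]
        refine mul_le_mul_of_nonneg_right ?_ (by positivity)
        exact_mod_cast Finset.card_le_card (Finset.erase_subset T M)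
    refine (Finset.sum_le_sum h2).trans ?_
    rw [Finset.sum_const, nsmul_eq_mul, hμ]
    refine le_of_eq ?_
    ring
  have h3 : ∀ Q ∈ V.powerset, wt p V Q * ((M.filter (fun T => T ⊆ Q)).card - μ : ℝ) ^ 2 =
      wt p V Q * ((M.filter (fun T => T ⊆ Q)).card : ℝ) ^ 2 -
        2 * μ * (wt p V Q * ((M.filter (fun T => T ⊆ Q)).card : ℝ)) + μ ^ 2 * wt p V Q := by
    intro Q _
    ring
  rw [Finset.sum_congr rfl h3, Finset.sum_add_distrib, Finset.sum_sub_distrib, ← Finset.mul_sum,
    ← Finset.mul_sum, hE1, sample_one]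
  nlinarith

private theorem sample_bad {α : Type} [DecidableEq α] (p : ℝ) (hp : 0 ≤ p) (hp1 : p ≤ 1)
    (V : Finset α) (M : Finset (Finset α)) (t d : ℕ) (hM : ∀ T ∈ M, T ⊆ V ∧ T.card = t)
    (hd : ∀ T ∈ M, ∀ T' ∈ M, T ≠ T' → Disjoint T T') (hd1 : 1 ≤ d)
    (hμ : 32 * (d : ℝ) ≤ M.card * p ^ t) :
    ∑ Q ∈ V.powerset, wt p V Q * (if (M.filter (fun T => T ⊆ Q)).card < d then (1 : ℝ) else 0) ≤
      1 / 8 := by
  set μ : ℝ := M.card * p ^ t with hμdef
  have hd1' : (1 : ℝ) ≤ d := by exact_mod_cast hd1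
  have hμ32 : 32 ≤ μ := by linarith
  have hμ0 : 0 < μ := by linarith
  have h1 : ∀ Q ∈ V.powerset, wt p V Q *
      (if (M.filter (fun T => T ⊆ Q)).card < d then (1 : ℝ) else 0) ≤
      (4 / μ ^ 2) * (wt p V Q * ((M.filter (fun T => T ⊆ Q)).card - μ : ℝ) ^ 2) := by
    intro Q _
    have hw := wt_nonneg p hp hp1 V Q
    have h2 : (if (M.filter (fun T => T ⊆ Q)).card < d then (1 : ℝ) else 0) ≤
        (4 / μ ^ 2) * ((M.filter (fun T => T ⊆ Q)).card - μ : ℝ) ^ 2 := by
      split_ifs with hlt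
      · have h3 : ((M.filter (fun T => T ⊆ Q)).card : ℝ) ≤ d := by exact_mod_cast hlt.le
        have h4 : μ / 2 ≤ μ - (M.filter (fun T => T ⊆ Q)).card := by linarith
        have h5 : (μ / 2) ^ 2 ≤ (μ - (M.filter (fun T => T ⊆ Q)).card) ^ 2 :=
          pow_le_pow_left₀ (by positivity) h4 2
        have h6 : (4 / μ ^ 2) * (μ / 2) ^ 2 = 1 := by
          field_simp
          norm_num
        calc (1 : ℝ) = (4 / μ ^ 2) * (μ / 2) ^ 2 := h6.symm
          _ ≤ (4 / μ ^ 2) * (μ - (M.filter (fun T => T ⊆ Q)).card) ^ 2 :=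
            mul_le_mul_of_nonneg_left h5 (by positivity)
          _ = _ := by ring
      · positivity
    calc _ ≤ wt p V Q * ((4 / μ ^ 2) * ((M.filter (fun T => T ⊆ Q)).card - μ : ℝ) ^ 2) :=
          mul_le_mul_of_nonneg_left h2 hw
      _ = _ := by ring
  refine (Finset.sum_le_sum h1).trans ?_
  rw [← Finset.mul_sum]
  refine (mul_le_mul_of_nonneg_left (sample_moment p hp V M t hM hd) (by positivity)).trans ?_
  rw [← hμdef]
  have h2 : 4 / μ ^ 2 * μ = 4 / μ := by
    field_simp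
  rw [h2, div_le_div_iff₀ hμ0 (by norm_num)]
  linarith

theorem exists_sample {α : Type} [DecidableEq α] (V I : Finset α) (hI : I ⊆ V)
    (hne : I.Nonempty) (j d q : ℕ) (hj : 1 ≤ j) (hd : 1 ≤ d) (hq : 8 * j ≤ q)
    (S : α → Finset α) (hS : ∀ i ∈ I, S i ⊆ V ∧ (S i).card ≤ j) (t : α → ℕ)
    (ht : ∀ i ∈ I, t i ≤ j) (M : α → Finset (Finset α))
    (hM : ∀ i ∈ I, (M i).card = 32 * d * q ^ j ∧ (∀ T ∈ M i, T ⊆ V ∧ T.card = t i) ∧
      ∀ T ∈ M i, ∀ T' ∈ M i, T ≠ T' → Disjoint T T') :
    ∃ Q I' : Finset α, Q ⊆ V ∧ q * Q.card ≤ 2 * V.card ∧ I' ⊆ I ∧ I.card ≤ 2 * I'.card ∧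
      ∀ i ∈ I', Disjoint (S i) Q ∧ d ≤ ((M i).filter (fun T => T ⊆ Q)).card := by
  classical
  set p : ℝ := 1 / (q : ℝ) with hp
  have hq8 : (8 : ℝ) * j ≤ q := by exact_mod_cast hq
  have hj1 : (1 : ℝ) ≤ j := by exact_mod_cast hj
  have hq0 : (0 : ℝ) < q := by linarith
  have hp0 : 0 < p := by positivity
  have hp1 : p < 1 := by
    rw [hp, div_lt_one hq0]
    linarith
  have hVpos : (0 : ℝ) < V.card := by
    have : V.Nonempty := hne.mono hI
    exact_mod_cast this.card_pos
  have hIpos : (0 : ℝ) < I.card := by exact_mod_cast hne.card_pos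
  have hw : ∀ Q, 0 < wt p V Q := by
    intro Q
    unfold wt
    have : 0 < 1 - p := by linarith
    positivity
  -- the number of bad points
  let bad : Finset α → Finset α := fun Q => I.filter (fun i => ¬ (Disjoint (S i) Q ∧
    d ≤ ((M i).filter (fun T => T ⊆ Q)).card))
  have hbad : ∑ Q ∈ V.powerset, wt p V Q * ((bad Q).card : ℝ) ≤ I.card * (1 / 4) := by
    have h1 : ∀ Q ∈ V.powerset, wt p V Q * ((bad Q).card : ℝ) ≤
        ∑ i ∈ I, (wt p V Q * ((S i ∩ Q).card : ℝ) +
          wt p V Q * (if ((M i).filter (fun T => T ⊆ Q)).card < d then (1 : ℝ) else 0)) := by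
      intro Q _
      have h2 : ((bad Q).card : ℝ) ≤ ∑ i ∈ I, (((S i ∩ Q).card : ℝ) +
          (if ((M i).filter (fun T => T ⊆ Q)).card < d then (1 : ℝ) else 0)) := by
        simp only [bad]
        rw [Finset.card_filter]
        push_cast
        refine Finset.sum_le_sum fun i _ => ?_
        by_cases h3 : Disjoint (S i) Q
        · by_cases h4 : d ≤ ((M i).filter (fun T => T ⊆ Q)).card
          · have h5 : ¬ (((M i).filter (fun T => T ⊆ Q)).card < d) := by omega
            simp only [h3, h4, h5, true_and, not_true_eq_false, if_false, add_zero]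
            positivity
          · have h5 : ((M i).filter (fun T => T ⊆ Q)).card < d := by omega
            simp only [h3, h4, h5, true_and, not_false_eq_true, if_true]
            have : (0 : ℝ) ≤ ((S i ∩ Q).card : ℝ) := by positivity
            linarith
        · have h5 : 1 ≤ (S i ∩ Q).card := by
            rw [Finset.disjoint_iff_inter_eq_empty, ← Finset.card_eq_zero] at h3
            omega
          have h6 : (1 : ℝ) ≤ ((S i ∩ Q).card : ℝ) := by exact_mod_cast h5
          simp only [h3, false_and, not_false_eq_true, if_true]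
          have h7 : (0 : ℝ) ≤ (if ((M i).filter (fun T => T ⊆ Q)).card < d then (1 : ℝ) else 0) := by
            split_ifs <;> norm_num
          linarith
      refine (mul_le_mul_of_nonneg_left h2 (hw Q).le).trans (le_of_eq ?_)
      rw [Finset.mul_sum]
      refine Finset.sum_congr rfl fun i _ => ?_
      ring
    refine (Finset.sum_le_sum h1).trans ?_
    rw [Finset.sum_comm]
    have h2 : ∀ i ∈ I, ∑ Q ∈ V.powerset, (wt p V Q * ((S i ∩ Q).card : ℝ) +
        wt p V Q * (if ((M i).filter (fun T => T ⊆ Q)).card < d then (1 : ℝ) else 0)) ≤ 1 / 4 := by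
      intro i hi
      rw [Finset.sum_add_distrib, sample_card p V (S i) (hS i hi).1]
      have h3 : ((S i).card : ℝ) * p ≤ 1 / 8 := by
        have h4 : ((S i).card : ℝ) ≤ j := by exact_mod_cast (hS i hi).2
        rw [hp, mul_one_div, div_le_div_iff₀ hq0 (by norm_num)]
        linarith
      have h4 := sample_bad p hp0.le hp1.le V (M i) (t i) d (hM i hi).2.1 (hM i hi).2.2 hd (by
        rw [(hM i hi).1]
        push_cast
        have h5 : p ^ j ≤ p ^ (t i) := pow_le_pow_of_le_one hp0.le hp1.le (ht i hi)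
        have h6 : (q : ℝ) ^ j * p ^ j = 1 := by
          rw [← mul_pow, hp, mul_one_div, div_self hq0.ne', one_pow]
        have h7 : (1 : ℝ) ≤ (q : ℝ) ^ j * p ^ (t i) := by
          rw [← h6]
          exact mul_le_mul_of_nonneg_left h5 (by positivity)
        have h8 : (0 : ℝ) ≤ 32 * (d : ℝ) := by positivity
        calc 32 * (d : ℝ) = 32 * d * 1 := by ring
          _ ≤ 32 * d * ((q : ℝ) ^ j * p ^ (t i)) := mul_le_mul_of_nonneg_left h7 h8
          _ = 32 * d * (q : ℝ) ^ j * p ^ (t i) := by ring)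
      linarith
    refine (Finset.sum_le_sum h2).trans ?_
    rw [Finset.sum_const, nsmul_eq_mul]
  have hQ : ∑ Q ∈ V.powerset, wt p V Q * (Q.card : ℝ) = V.card * p := by
    rw [← sample_card p V V le_rfl]
    refine Finset.sum_congr rfl fun Q hQ => ?_
    rw [Finset.inter_eq_right.2 (Finset.mem_powerset.1 hQ)]
  -- the combined functional
  have hf : ∑ Q ∈ V.powerset, wt p V Q * (((bad Q).card : ℝ) / I.card + q * Q.card / (4 * V.card)) ≤
      ∑ Q ∈ V.powerset, wt p V Q * (1 / 2) := by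
    have h1 : ∀ Q ∈ V.powerset, wt p V Q * (((bad Q).card : ℝ) / I.card + q * Q.card / (4 * V.card))
        = (1 / (I.card : ℝ)) * (wt p V Q * ((bad Q).card : ℝ)) +
          (q / (4 * V.card)) * (wt p V Q * (Q.card : ℝ)) := by
      intro Q _
      ring
    rw [Finset.sum_congr rfl h1, Finset.sum_add_distrib, ← Finset.mul_sum, ← Finset.mul_sum, hQ,
      ← Finset.sum_mul, sample_one]
    have h2 : (1 / (I.card : ℝ)) * ∑ Q ∈ V.powerset, wt p V Q * ((bad Q).card : ℝ) ≤ 1 / 4 := by
      refine (mul_le_mul_of_nonneg_left hbad (by positivity)).trans (le_of_eq ?_)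
      field_simp
    have h3 : (q / (4 * V.card) : ℝ) * (V.card * p) = 1 / 4 := by
      rw [hp]
      field_simp
    rw [h3]
    linarith
  obtain ⟨Q, hQV, hQle⟩ := Finset.exists_le_of_sum_le
    (Finset.powerset_nonempty V) hf
  have hQf := le_of_mul_le_mul_left hQle (hw Q)
  have hQV' := Finset.mem_powerset.1 hQV
  have hb1 : ((bad Q).card : ℝ) / I.card ≤ 1 / 2 := by
    have : (0 : ℝ) ≤ q * Q.card / (4 * V.card) := by positivity
    linarith
  have hb2 : (q * Q.card / (4 * V.card) : ℝ) ≤ 1 / 2 := by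
    have : (0 : ℝ) ≤ ((bad Q).card : ℝ) / I.card := by positivity
    linarith
  refine ⟨Q, I.filter (fun i => Disjoint (S i) Q ∧ d ≤ ((M i).filter (fun T => T ⊆ Q)).card),
    hQV', ?_, Finset.filter_subset _ _, ?_, ?_⟩
  · rw [div_le_div_iff₀ (by positivity) (by norm_num)] at hb2
    have h1 : (q : ℝ) * Q.card ≤ 2 * V.card := by linarith
    exact_mod_cast h1
  · rw [div_le_div_iff₀ hIpos (by norm_num)] at hb1
    have h1 : (bad Q).card * 2 ≤ 1 * I.card := by exact_mod_cast hb1
    have h2 := Finset.card_filter_add_card_filter_not (s := I) (fun i => Disjoint (S i) Q ∧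
      d ≤ ((M i).filter (fun T => T ⊆ Q)).card)
    simp only [bad] at h1
    omega
  · intro i hi
    exact (Finset.mem_filter.1 hi).2

end Pool.Agent.Lib.MP_6d8312_an.Q
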