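import Pool.Agent.Lib.MP_6d8312_an.Q.MinDeg
import Pool.Agent.Lib.MP_6d8312_an.Q.Rich
import Pool.Agent.Lib.MP_6d8312_an.Q.Hub
import Pool.Agent.Lib.MP_6d8312_an.Q.Sample

/-! # Extraction of an unbalanced configuration from a dense hypergraph -/

set_option autoImplicit false

noncomputable section

namespace Pool.Agent.Lib.MP_6d8312_an.Q

private theorem extract_one (L d : ℕ) (hd : 2 ≤ d) (j : ℕ) (hj : 1 ≤ j) : ∃ D : ℕ,
    ∀ (V : Finset ℤ) (H : Finset (Finset ℤ)), (∀ T ∈ H, T ⊆ V ∧ T.card = j) → ∅ ∉ H →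
      V.Nonempty → D * V.card ≤ H.card →
      ∃ (F I : Finset ℤ) (S : ℤ → Finset ℤ) (T : ℤ → Fin d → Finset ℤ),
        F ⊆ V ∧ F.Nonempty ∧ I.Nonempty ∧ L * F.card ≤ I.card ∧
        (∀ i ∈ I, S i ⊆ V ∧ (S i).Nonempty ∧ Disjoint (S i) F) ∧
        (∀ i ∈ I, ∀ i' ∈ I, i ≠ i' → Disjoint (S i) (S i')) ∧
        ∀ i ∈ I, Function.Injective (T i) ∧ ∀ l, T i l ⊆ F ∧ S i ∪ T i l ∈ H := by
  classical
  set a : ℕ := 4 * L + 1 with ha
  set C : ℕ := hubC j a with hC
  have hCpos : 0 < C := by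
    rw [hC]
    unfold hubC
    have h1 : 0 < 4 * j ^ 2 * a := by positivity
    positivity
  set q : ℕ := 8 * (L * C + j) with hq
  set m : ℕ := 32 * d * q ^ j with hm
  have hq1 : 0 < q := by omega
  have hm1 : 1 ≤ m := by
    have : 0 < 32 * d * q ^ j := Nat.mul_pos (by omega) (Nat.pow_pos hq1)
    omega
  refine ⟨2 * (j * m) ^ (j - 1), ?_⟩
  intro V H hH h0 hV hcard
  obtain ⟨V', hV'V, hV'n, hdeg⟩ := exists_min_degree (2 * (j * m) ^ (j - 1)) H h0 V hV
    (fun T hT => (hH T hT).1) hcard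
  set H' : Finset (Finset ℤ) := H.filter (fun T => T ⊆ V') with hH'
  have hrich : ∀ x, ∃ (S : Finset ℤ) (M : Finset (Finset ℤ)), x ∈ V' →
      x ∈ S ∧ S.card < j ∧ M.card = m ∧
      (∀ T ∈ M, T.card + S.card = j ∧ Disjoint S T ∧ S ∪ T ∈ H') ∧
      ∀ T ∈ M, ∀ T' ∈ M, T ≠ T' → Disjoint T T' := by
    intro x
    by_cases hx : x ∈ V'
    · obtain ⟨S, M, h1⟩ := exists_rich H' j m hj hm1
        (fun T hT => (hH T (Finset.mem_filter.1 hT).1).2) x (by
          rw [hH', Finset.filter_filter]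
          exact hdeg x hx)
      exact ⟨S, M, fun _ => h1⟩
    · exact ⟨∅, ∅, fun h => absurd h hx⟩
  choose S M hSM using hrich
  have hMne : ∀ x ∈ V', (M x).Nonempty := by
    intro x hx
    rw [← Finset.card_pos, (hSM x hx).2.2.1]
    omega
  have hSub : ∀ x ∈ V', ∀ T ∈ M x, S x ⊆ V' ∧ T ⊆ V' := by
    intro x hx T hT
    have h1 := ((hSM x hx).2.2.2.1 T hT).2.2
    rw [hH', Finset.mem_filter] at h1
    exact ⟨Finset.subset_union_left.trans h1.2, Finset.subset_union_right.trans h1.2⟩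
  have hSV : ∀ x ∈ V', S x ⊆ V' := by
    intro x hx
    obtain ⟨T, hT⟩ := hMne x hx
    exact (hSub x hx T hT).1
  obtain ⟨B, I, hBV, hIV, hIn, hIB, hId, hVI, hBI⟩ := exists_hub V' hV'n S j a hj (by omega)
    (fun x hx => ⟨(hSM x hx).1, hSV x hx, (hSM x hx).2.1.le⟩)
  obtain ⟨Q, I', hQV, hQc, hI'I, hII', hgood⟩ := exists_sample V' I hIV hIn j d q hj (by omega)
    (by omega) S (fun i hi => ⟨hSV i (hIV hi), (hSM i (hIV hi)).2.1.le⟩)
    (fun i => j - (S i).card) (fun i _ => Nat.sub_le _ _) M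
    (fun i hi => ⟨(hSM i (hIV hi)).2.2.1, fun T hT => ⟨(hSub i (hIV hi) T hT).2, by
      have := ((hSM i (hIV hi)).2.2.2.1 T hT).1
      omega⟩, (hSM i (hIV hi)).2.2.2.2⟩)
  -- the choice of the small sets
  have hT : ∀ i, ∃ τ : Fin d → Finset ℤ, i ∈ I' → Function.Injective τ ∧
      ∀ l, τ l ∈ M i ∧ τ l ⊆ Q := by
    intro i
    by_cases hi : i ∈ I'
    · obtain ⟨X, hX, hXc⟩ := Finset.exists_subset_card_eq (hgood i hi).2
      let eX : Fin d ≃ X := (Finset.equivFinOfCardEq hXc).symm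
      refine ⟨fun l => (eX l : Finset ℤ), fun _ => ⟨?_, ?_⟩⟩
      · intro l l' hll
        exact eX.injective (Subtype.ext hll)
      · intro l
        have h1 := hX (eX l).2
        rw [Finset.mem_filter] at h1
        exact h1
    · exact ⟨fun _ => ∅, fun h => absurd h hi⟩
  choose τ hτ using hT
  have hI'n : I'.Nonempty := by
    rw [← Finset.card_pos]
    have := hIn.card_pos
    omega
  have hinj : ∀ i ∈ I', Function.Injective (fun l => (S i ∩ B) ∪ τ i l) := by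
    intro i hi l l' hll
    have hiV := hIV (hI'I hi)
    have key : ∀ l, ((S i ∩ B) ∪ τ i l) \ S i = τ i l := by
      intro l
      have hdis := ((hSM i hiV).2.2.2.1 (τ i l) ((hτ i hi).2 l).1).2.1
      ext y
      simp only [Finset.mem_sdiff, Finset.mem_union, Finset.mem_inter]
      constructor
      · rintro ⟨h1 | h1, h2⟩
        · exact absurd h1.1 h2
        · exact h1
      · intro h1
        exact ⟨Or.inr h1, fun h2 => Finset.disjoint_left.1 hdis h2 h1⟩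
    have h1 := key l
    have h2 := key l'
    simp only at hll
    rw [hll, h2] at h1
    exact ((hτ i hi).1 h1).symm
  have hsubF : ∀ i ∈ I', ∀ l, (S i ∩ B) ∪ τ i l ⊆ B ∪ Q := by
    intro i hi l
    exact Finset.union_subset_union Finset.inter_subset_right ((hτ i hi).2 l).2
  refine ⟨B ∪ Q, I', fun i => S i \ B, fun i l => (S i ∩ B) ∪ τ i l, ?_, ?_, hI'n, ?_, ?_, ?_, ?_⟩
  · exact (Finset.union_subset hBV hQV).trans hV'V
  · obtain ⟨i, hi⟩ := hI'n
    rw [Finset.nonempty_iff_ne_empty]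
    intro hemp
    have h1 := hsubF i hi ⟨0, by omega⟩
    have h2 := hsubF i hi ⟨1, by omega⟩
    rw [hemp, Finset.subset_empty] at h1 h2
    have h3 := hinj i hi (show (fun l => (S i ∩ B) ∪ τ i l) ⟨0, by omega⟩ =
      (fun l => (S i ∩ B) ∪ τ i l) ⟨1, by omega⟩ from h1.trans h2.symm)
    rw [Fin.mk.injEq] at h3
    omega
  · have h1 : 4 * L * B.card ≤ I.card := by
      refine le_trans ?_ hBI
      exact Nat.mul_le_mul_right _ (by omega)
    have h2 : 4 * L * Q.card ≤ I.card := by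
      have h3 : C * 2 * (4 * L * Q.card) ≤ C * 2 * I.card := by
        calc C * 2 * (4 * L * Q.card) = (8 * (L * C)) * Q.card := by ring
          _ ≤ q * Q.card := Nat.mul_le_mul_right _ (by omega)
          _ ≤ 2 * V'.card := hQc
          _ ≤ 2 * (C * I.card) := Nat.mul_le_mul_left 2 hVI
          _ = C * 2 * I.card := by ring
      exact Nat.le_of_mul_le_mul_left h3 (by omega)
    have h3 := Finset.card_union_le B Q
    have h4 : 4 * L * (B ∪ Q).card ≤ 2 * I.card := by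
      calc 4 * L * (B ∪ Q).card ≤ 4 * L * (B.card + Q.card) := Nat.mul_le_mul_left _ h3
        _ = 4 * L * B.card + 4 * L * Q.card := by ring
        _ ≤ 2 * I.card := by omega
    have h5 : 4 * (L * (B ∪ Q).card) ≤ 4 * I'.card := by
      calc 4 * (L * (B ∪ Q).card) = 4 * L * (B ∪ Q).card := by ring
        _ ≤ 2 * I.card := h4
        _ ≤ 4 * I'.card := by omega
    omega
  · intro i hi
    have hiV := hIV (hI'I hi)
    refine ⟨Finset.sdiff_subset.trans ((hSV i hiV).trans hV'V), ?_, ?_⟩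
    · exact ⟨i, Finset.mem_sdiff.2 ⟨(hSM i hiV).1, hIB i (hI'I hi)⟩⟩
    · rw [Finset.disjoint_union_right]
      exact ⟨Finset.sdiff_disjoint, Finset.disjoint_of_subset_left Finset.sdiff_subset
        (hgood i hi).1⟩
  · intro i hi i' hi' hne
    exact hId i (hI'I hi) i' (hI'I hi') hne
  · intro i hi
    have hiV := hIV (hI'I hi)
    refine ⟨hinj i hi, fun l => ⟨hsubF i hi l, ?_⟩⟩
    have h1 : S i \ B ∪ (S i ∩ B ∪ τ i l) = S i ∪ τ i l := by
      rw [← Finset.union_assoc, Finset.sdiff_union_inter]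
    simp only
    rw [h1]
    have h2 := ((hSM i hiV).2.2.2.1 (τ i l) ((hτ i hi).2 l).1).2.2
    rw [hH', Finset.mem_filter] at h2
    exact h2.1

theorem extraction (k L d : ℕ) (hd : 2 ≤ d) : ∃ D : ℕ, 1 ≤ D ∧ ∀ j ≤ k,
    ∀ (V : Finset ℤ) (H : Finset (Finset ℤ)), (∀ T ∈ H, T ⊆ V ∧ T.card = j) → ∅ ∉ H →
      V.Nonempty → D * V.card ≤ H.card →
      ∃ (F I : Finset ℤ) (S : ℤ → Finset ℤ) (T : ℤ → Fin d → Finset ℤ),
        F ⊆ V ∧ F.Nonempty ∧ I.Nonempty ∧ L * F.card ≤ I.card ∧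
        (∀ i ∈ I, S i ⊆ V ∧ (S i).Nonempty ∧ Disjoint (S i) F) ∧
        (∀ i ∈ I, ∀ i' ∈ I, i ≠ i' → Disjoint (S i) (S i')) ∧
        ∀ i ∈ I, Function.Injective (T i) ∧ ∀ l, T i l ⊆ F ∧ S i ∪ T i l ∈ H := by
  classical
  have h1 : ∀ j : ℕ, ∃ D : ℕ, 1 ≤ j → ∀ (V : Finset ℤ) (H : Finset (Finset ℤ)),
      (∀ T ∈ H, T ⊆ V ∧ T.card = j) → ∅ ∉ H →
      V.Nonempty → D * V.card ≤ H.card →
      ∃ (F I : Finset ℤ) (S : ℤ → Finset ℤ) (T : ℤ → Fin d → Finset ℤ),
        F ⊆ V ∧ F.Nonempty ∧ I.Nonempty ∧ L * F.card ≤ I.card ∧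
        (∀ i ∈ I, S i ⊆ V ∧ (S i).Nonempty ∧ Disjoint (S i) F) ∧
        (∀ i ∈ I, ∀ i' ∈ I, i ≠ i' → Disjoint (S i) (S i')) ∧
        ∀ i ∈ I, Function.Injective (T i) ∧ ∀ l, T i l ⊆ F ∧ S i ∪ T i l ∈ H := by
    intro j
    by_cases hj : 1 ≤ j
    · obtain ⟨D, hD⟩ := extract_one L d hd j hj
      exact ⟨D, fun _ => hD⟩
    · exact ⟨0, fun h => absurd h hj⟩
  choose D hD using h1
  refine ⟨∑ j ∈ Finset.range (k + 1), D j + 1, by omega, ?_⟩
  intro j hj V H hH h0 hV hcard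
  rcases Nat.eq_zero_or_pos j with rfl | hj0
  · exfalso
    have h2 : H = ∅ := by
      rw [Finset.eq_empty_iff_forall_notMem]
      intro T hT
      have h3 := (hH T hT).2
      rw [Finset.card_eq_zero] at h3
      rw [h3] at hT
      exact h0 hT
    rw [h2, Finset.card_empty] at hcard
    have h3 := hV.card_pos
    have h4 : 0 < (∑ j ∈ Finset.range (k + 1), D j + 1) * V.card := Nat.mul_pos (by omega) h3
    omega
  · refine hD j hj0 V H hH h0 hV (le_trans (Nat.mul_le_mul_right _ ?_) hcard)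
    have h2 : D j ≤ ∑ j ∈ Finset.range (k + 1), D j :=
      Finset.single_le_sum (f := D) (fun _ _ => Nat.zero_le _) (Finset.mem_range.2 (by omega))
    omega

end Pool.Agent.Lib.MP_6d8312_an.Q
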