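import Pool.Agent.Lib.MP_6d8312_an.Mg.G001

/-! # From families to finite sets -/

set_option autoImplicit false

noncomputable section

namespace Pool.Agent.Lib.MP_6d8312_an.Q

theorem of_family {ι : Type} [Fintype ι] (n : ι → ℤ) (w : ι → ℂ) (v : ℤ → ℝ) :
    ∃ (A : Finset ℤ) (w' : ℤ → ℂ), (∀ m ∈ A, ∃ i, n i = m) ∧
      (∀ θ : ℝ, W A w' θ = ∑ i, w i * e (n i * θ)) ∧
      ∑ l ∈ A, w' l * Complex.exp (Complex.I * v l) =
        ∑ i, w i * Complex.exp (Complex.I * v (n i)) := by
  classical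
  have key : ∀ g : ℤ → ℂ, ∑ l ∈ Finset.univ.image n,
      (∑ i ∈ Finset.univ.filter (fun i => n i = l), w i) * g l = ∑ i, w i * g (n i) := by
    intro g
    rw [← Finset.sum_fiberwise_of_maps_to (s := Finset.univ) (t := Finset.univ.image n) (g := n)
      (fun i _ => Finset.mem_image_of_mem n (Finset.mem_univ i)) (fun i => w i * g (n i))]
    refine Finset.sum_congr rfl fun l _ => ?_
    rw [Finset.sum_mul]
    refine Finset.sum_congr rfl fun i hi => ?_
    rw [(Finset.mem_filter.1 hi).2]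
  refine ⟨Finset.univ.image n, fun l => ∑ i ∈ Finset.univ.filter (fun i => n i = l), w i,
    ?_, ?_, ?_⟩
  · intro m hm
    obtain ⟨i, _, hi⟩ := Finset.mem_image.1 hm
    exact ⟨i, hi⟩
  · intro θ
    exact key (fun l => e (l * θ))
  · exact key (fun l => Complex.exp (Complex.I * v l))

theorem ss_union (s : ℤ → ℤ) {S T : Finset ℤ} (h : Disjoint S T) :
    SS s (S ∪ T) = SS s S + SS s T := by
  unfold SS
  exact Finset.sum_union h

theorem e_ss (s : ℤ → ℤ) (G : Finset ℤ) (θ : ℝ) :
    e (SS s G * θ) = ∏ x ∈ G, e (s x * x * θ) := by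
  induction G using Finset.induction_on with
  | empty => simp [SS, e_zero]
  | insert a G ha ih =>
    rw [Finset.prod_insert ha, ← ih, ← e_add]
    congr 1
    unfold SS
    rw [Finset.sum_insert ha]
    push_cast
    ring

end Pool.Agent.Lib.MP_6d8312_an.Q
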