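import Mathlib

/-! # Passing to a net -/

set_option autoImplicit false

noncomputable section

namespace Pool.Agent.Lib.MP_6d8312_an.Q

/-- The value of a monomial at a point of the net. -/
def netv {F : Finset ℤ} (y : F → Fin 4) (T : Finset ℤ) : ℂ :=
  ∏ x : F, if (x : ℤ) ∈ T then Complex.I ^ (y x : ℕ) else 1

theorem norm_netv {F : Finset ℤ} (y : F → Fin 4) (T : Finset ℤ) : ‖netv y T‖ = 1 := by
  unfold netv
  rw [norm_prod]
  apply Finset.prod_eq_one
  intro x _
  split_ifs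
  · simp
  · simp

private def netf {ι : Type} [Fintype ι] {d : ℕ} (T : ι → Fin d → Finset ℤ)
    (w : ι → Fin d → ℂ) (z : ℤ → ℂ) : ℝ :=
  ∑ i, ‖∑ l, w i l * ∏ x ∈ T i l, z x‖

private theorem net_aff {ι : Type} [Fintype ι] (g : ι → ℂ → ℂ) (A B : ι → ℂ)
    (hg : ∀ i u, g i u = A i + B i * u) (u : ℂ) (hu : |u.re| + |u.im| ≤ 1) :
    ∃ j : Fin 4, ∑ i, ‖g i u‖ ≤ ∑ i, ‖g i (Complex.I ^ (j : ℕ))‖ := by
  set c : Fin 4 → ℝ := ![(|u.re| + u.re) / 2 + (1 - |u.re| - |u.im|) / 2, (|u.im| + u.im) / 2,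
    (|u.re| - u.re) / 2 + (1 - |u.re| - |u.im|) / 2, (|u.im| - u.im) / 2] with hc
  have hc0 : ∀ j, 0 ≤ c j := by
    have h1 := neg_abs_le u.re
    have h2 := le_abs_self u.re
    have h3 := neg_abs_le u.im
    have h4 := le_abs_self u.im
    intro j
    fin_cases j <;> simp [hc] <;> linarith
  have hc1 : ∑ j, c j = 1 := by
    simp [hc, Fin.sum_univ_four]
    ring
  have hcu : ∑ j : Fin 4, (c j : ℂ) * Complex.I ^ (j : ℕ) = u := by
    have h2 : Complex.I ^ 2 = -1 := Complex.I_sq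
    have h3 : Complex.I ^ 3 = -Complex.I := by rw [pow_succ, h2]; ring
    rw [Fin.sum_univ_four]
    have e0 : ((0 : Fin 4) : ℕ) = 0 := rfl
    have e1 : ((1 : Fin 4) : ℕ) = 1 := rfl
    have e2 : ((2 : Fin 4) : ℕ) = 2 := rfl
    have e3 : ((3 : Fin 4) : ℕ) = 3 := rfl
    rw [e0, e1, e2, e3, h2, h3, pow_zero, pow_one]
    apply Complex.ext
    · simp [hc]
      ring
    · simp [hc]
      ring
  by_contra hcon
  push Not at hcon
  have key : ∑ i, ‖g i u‖ ≤ ∑ j : Fin 4, c j * ∑ i, ‖g i (Complex.I ^ (j : ℕ))‖ := by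
    have h1 : ∀ i, ‖g i u‖ ≤ ∑ j : Fin 4, c j * ‖g i (Complex.I ^ (j : ℕ))‖ := by
      intro i
      have h2 : g i u = ∑ j : Fin 4, (c j : ℂ) * g i (Complex.I ^ (j : ℕ)) := by
        have : ∀ j : Fin 4, (c j : ℂ) * g i (Complex.I ^ (j : ℕ)) =
            A i * (c j : ℂ) + B i * ((c j : ℂ) * Complex.I ^ (j : ℕ)) := by
          intro j
          rw [hg]
          ring
        rw [Finset.sum_congr rfl fun j _ => this j, Finset.sum_add_distrib, ← Finset.mul_sum,
          ← Finset.mul_sum, hcu, hg]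
        congr 1
        rw [← Complex.ofReal_sum, hc1]
        simp
      rw [h2]
      refine (norm_sum_le _ _).trans (Finset.sum_le_sum fun j _ => ?_)
      rw [norm_mul, Complex.norm_real, Real.norm_of_nonneg (hc0 j)]
    calc ∑ i, ‖g i u‖ ≤ ∑ i, ∑ j : Fin 4, c j * ‖g i (Complex.I ^ (j : ℕ))‖ :=
          Finset.sum_le_sum fun i _ => h1 i
      _ = ∑ j : Fin 4, c j * ∑ i, ‖g i (Complex.I ^ (j : ℕ))‖ := by
          rw [Finset.sum_comm]
          refine Finset.sum_congr rfl fun j _ => ?_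
          rw [Finset.mul_sum]
  have hlt : ∑ j : Fin 4, c j * ∑ i, ‖g i (Complex.I ^ (j : ℕ))‖ <
      ∑ j : Fin 4, c j * ∑ i, ‖g i u‖ := by
    apply Finset.sum_lt_sum
    · intro j _
      exact mul_le_mul_of_nonneg_left (hcon j).le (hc0 j)
    · have : ∃ j, 0 < c j := by
        by_contra h
        push Not at h
        have : ∑ j, c j ≤ 0 := Finset.sum_nonpos fun j _ => h j
        linarith
      obtain ⟨j, hj⟩ := this
      exact ⟨j, Finset.mem_univ _, mul_lt_mul_of_pos_left (hcon j) hj⟩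
  rw [← Finset.sum_mul, hc1, one_mul] at hlt
  linarith

private theorem net_step {ι : Type} [Fintype ι] {d : ℕ} (T : ι → Fin d → Finset ℤ)
    (w : ι → Fin d → ℂ) (z : ℤ → ℂ) (x₀ : ℤ) (hz : |(z x₀).re| + |(z x₀).im| ≤ 1) :
    ∃ j : Fin 4, netf T w z ≤ netf T w (Function.update z x₀ (Complex.I ^ (j : ℕ))) := by
  classical
  obtain ⟨j, hj⟩ := net_aff (fun i u => ∑ l, w i l * ∏ x ∈ T i l, Function.update z x₀ u x)
    (fun i => ∑ l, if x₀ ∈ T i l then 0 else w i l * ∏ x ∈ T i l, z x)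
    (fun i => ∑ l, if x₀ ∈ T i l then w i l * ∏ x ∈ (T i l).erase x₀, z x else 0)
    (by
      intro i u
      rw [Finset.sum_mul, ← Finset.sum_add_distrib]
      refine Finset.sum_congr rfl fun l _ => ?_
      by_cases h : x₀ ∈ T i l
      · rw [if_pos h, if_pos h, ← Finset.mul_prod_erase _ _ h, Function.update_self]
        have : ∏ x ∈ (T i l).erase x₀, Function.update z x₀ u x =
            ∏ x ∈ (T i l).erase x₀, z x := by
          refine Finset.prod_congr rfl fun x hx => ?_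
          rw [Function.update_of_ne (Finset.ne_of_mem_erase hx)]
        rw [this]
        ring
      · rw [if_neg h, if_neg h]
        have : ∏ x ∈ T i l, Function.update z x₀ u x = ∏ x ∈ T i l, z x := by
          refine Finset.prod_congr rfl fun x hx => ?_
          rw [Function.update_of_ne]
          rintro rfl
          exact h hx
        rw [this]
        ring) (z x₀) hz
  refine ⟨j, ?_⟩
  unfold netf
  have e : Function.update z x₀ (z x₀) = z := Function.update_eq_self _ _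
  simpa [e] using hj

private theorem net_ind {ι : Type} [Fintype ι] {d : ℕ} (T : ι → Fin d → Finset ℤ)
    (w : ι → Fin d → ℂ) (z : ℤ → ℂ) (hz : ∀ x, |(z x).re| + |(z x).im| ≤ 1) (G : Finset ℤ) :
    ∃ y : ℤ → Fin 4, netf T w z ≤
      netf T w (fun x => if x ∈ G then Complex.I ^ (y x : ℕ) else z x) := by
  classical
  induction G using Finset.induction_on with
  | empty => exact ⟨fun _ => 0, by simp⟩
  | insert x₀ G hx ih =>
    obtain ⟨y, hy⟩ := ih
    obtain ⟨j, hj⟩ := net_step T w (fun x => if x ∈ G then Complex.I ^ (y x : ℕ) else z x) x₀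
      (by simpa [hx] using hz x₀)
    refine ⟨Function.update y x₀ j, hy.trans (hj.trans (le_of_eq ?_))⟩
    congr 1
    funext x
    by_cases h : x = x₀
    · subst h
      simp
    · rw [Function.update_of_ne h, Function.update_of_ne h]
      simp [h]

theorem net_bound {ι : Type} [Fintype ι] (d k : ℕ) (F : Finset ℤ) (T : ι → Fin d → Finset ℤ)
    (hT : ∀ i l, T i l ⊆ F) (t : ι → ℕ) (ht : ∀ i l, (T i l).card = t i) (htk : ∀ i, t i ≤ k)
    (w : ι → Fin d → ℂ) (z : ℤ → ℂ) (hz : ∀ x, ‖z x‖ ≤ 1) :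
    ∃ y : F → Fin 4, ∑ i, ‖∑ l, w i l * ∏ x ∈ T i l, z x‖ ≤
      2 ^ k * ∑ i, ‖∑ l, w i l * netv y (T i l)‖ := by
  have hz' : ∀ x, |(z x / 2).re| + |(z x / 2).im| ≤ 1 := by
    intro x
    have h1 := Complex.abs_re_le_norm (z x)
    have h2 := Complex.abs_im_le_norm (z x)
    have h3 := hz x
    have e1 : (z x / 2).re = (z x).re / 2 := by simp
    have e2 : (z x / 2).im = (z x).im / 2 := by simp
    rw [e1, e2, abs_div, abs_div, abs_of_pos (show (0 : ℝ) < 2 by norm_num)]
    linarith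
  obtain ⟨y, hy⟩ := net_ind T w (fun x => z x / 2) hz' F
  refine ⟨fun x => y x, ?_⟩
  have h1 : ∀ i, ‖∑ l, w i l * ∏ x ∈ T i l, z x‖ ≤
      2 ^ k * ‖∑ l, w i l * ∏ x ∈ T i l, z x / 2‖ := by
    intro i
    have : ∑ l, w i l * ∏ x ∈ T i l, z x = 2 ^ (t i) * ∑ l, w i l * ∏ x ∈ T i l, z x / 2 := by
      rw [Finset.mul_sum]
      refine Finset.sum_congr rfl fun l _ => ?_
      rw [Finset.prod_div_distrib, Finset.prod_const, ht]
      have : (2 : ℂ) ^ t i ≠ 0 := pow_ne_zero _ two_ne_zero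
      field_simp
    rw [this, norm_mul, norm_pow, Complex.norm_ofNat]
    exact mul_le_mul_of_nonneg_right (pow_le_pow_right₀ (by norm_num) (htk i)) (norm_nonneg _)
  calc ∑ i, ‖∑ l, w i l * ∏ x ∈ T i l, z x‖
      ≤ ∑ i, 2 ^ k * ‖∑ l, w i l * ∏ x ∈ T i l, z x / 2‖ := Finset.sum_le_sum fun i _ => h1 i
    _ = 2 ^ k * netf T w (fun x => z x / 2) := by rw [← Finset.mul_sum]; rfl
    _ ≤ 2 ^ k * netf T w (fun x => if x ∈ F then Complex.I ^ (y x : ℕ) else z x / 2) :=
        mul_le_mul_of_nonneg_left hy (by positivity)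
    _ = _ := by
        unfold netf
        congr 1
        refine Finset.sum_congr rfl fun i _ => ?_
        congr 1
        refine Finset.sum_congr rfl fun l _ => ?_
        congr 1
        unfold netv
        rw [Finset.prod_coe_sort F (fun x => if x ∈ T i l then Complex.I ^ (y x : ℕ) else 1),
          Finset.prod_ite_mem, Finset.inter_eq_right.2 (hT i l)]
        refine Finset.prod_congr rfl fun x hx => ?_
        exact if_pos (hT i l hx)

end Pool.Agent.Lib.MP_6d8312_an.Q
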