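import Mathlib

/-! # The expectation of a supremum over a net -/

set_option autoImplicit false

noncomputable section

namespace Pool.Agent.Lib.MP_6d8312_an.Q

private theorem supbd_lin (t : ℝ) : t ≤ Real.exp (Real.log 2 * t) := by
  rcases le_or_gt t 0 with h | h
  · exact h.trans (Real.exp_pos _).le
  · have h1 : (1 : ℝ) / 2 ≤ Real.log 2 := by
      have := Real.log_two_gt_d9
      linarith
    have h2 : 0 ≤ Real.log 2 * t := by positivity
    have h3 := Real.quadratic_le_exp_of_nonneg h2
    nlinarith [sq_nonneg (Real.log 2 * t - 1)]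

private theorem supbd_exp (u : ℝ) (h0 : 0 ≤ u) (h1 : u ≤ 1) :
    Real.exp (Real.log 2 * u) ≤ 1 + u := by
  have h := _root_.rpow_one_add_le_one_add_mul_self (s := 1) (by norm_num) h0 h1
  rw [show (1 : ℝ) + 1 = 2 by norm_num, Real.rpow_def_of_pos (by norm_num)] at h
  linarith

theorem sup_bound {ι Y X : Type} [Fintype ι] [DecidableEq ι] [Fintype Y] [Fintype X]
    [Nonempty X] (P : Y → ι → X → ℝ) (B : ℝ) (hB : 0 < B) (h0 : ∀ y i x, 0 ≤ P y i x)
    (h1 : ∀ y i x, P y i x ≤ B) (m : ι → ℝ)
    (hm : ∀ y i, ∑ x, P y i x ≤ m i * Fintype.card X) (f : ℕ) (hY : Fintype.card Y ≤ 4 ^ f)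
    (S : (ι → X) → ℝ) (hS : ∀ ζ, ∃ y, S ζ = ∑ i, P y i (ζ i)) :
    ∑ ζ, S ζ ≤ Fintype.card (ι → X) * (B * (2 * f + 1) + 3 / 2 * ∑ i, m i) := by
  classical
  set L := Real.log 2 with hLdef
  have hL : (2 : ℝ) / 3 ≤ L := by
    have := Real.log_two_gt_d9
    linarith
  have hL0 : 0 < L := by linarith
  have hXpos : (0 : ℝ) < Fintype.card X := by exact_mod_cast Fintype.card_pos
  have hYne : Nonempty Y := by
    obtain ⟨y, _⟩ := hS (fun _ => Classical.arbitrary X)
    exact ⟨y⟩
  have hm0 : ∀ i, 0 ≤ m i := by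
    intro i
    have h2 := hm (Classical.arbitrary Y) i
    have h3 : 0 ≤ ∑ x, P (Classical.arbitrary Y) i x := Finset.sum_nonneg fun x _ => h0 _ _ _
    have h4 : 0 ≤ m i * Fintype.card X := h3.trans h2
    exact nonneg_of_mul_nonneg_left h4 hXpos
  set M := ∑ i, m i with hM
  have hM0 : 0 ≤ M := Finset.sum_nonneg fun i _ => hm0 i
  have hN : (Fintype.card (ι → X) : ℝ) = ∏ _i : ι, (Fintype.card X : ℝ) := by
    rw [Fintype.card_fun]
    simp
  have hinner : ∀ y i, ∑ x, Real.exp (L * (P y i x / B)) ≤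
      Fintype.card X * Real.exp (m i / B) := by
    intro y i
    calc ∑ x, Real.exp (L * (P y i x / B)) ≤ ∑ x, (1 + P y i x / B) := by
          refine Finset.sum_le_sum fun x _ => ?_
          refine supbd_exp _ (div_nonneg (h0 _ _ _) hB.le) ?_
          rw [div_le_one hB]
          exact h1 _ _ _
      _ = Fintype.card X + (∑ x, P y i x) / B := by
          rw [Finset.sum_add_distrib, Finset.sum_div]
          simp
      _ ≤ Fintype.card X + (m i * Fintype.card X) / B := by
          gcongr
          exact hm y i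
      _ = Fintype.card X * (m i / B + 1) := by ring
      _ ≤ Fintype.card X * Real.exp (m i / B) := by
          gcongr
          exact Real.add_one_le_exp _
  have hE : ∑ ζ, Real.exp (L * (S ζ / B)) ≤
      4 ^ f * (Fintype.card (ι → X) * Real.exp (M / B)) := by
    calc ∑ ζ, Real.exp (L * (S ζ / B))
        ≤ ∑ ζ : ι → X, ∑ y : Y, ∏ i, Real.exp (L * (P y i (ζ i) / B)) := by
          refine Finset.sum_le_sum fun ζ _ => ?_
          obtain ⟨y, hy⟩ := hS ζ
          have e : Real.exp (L * (S ζ / B)) = ∏ i, Real.exp (L * (P y i (ζ i) / B)) := by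
            rw [← Real.exp_sum, hy, Finset.sum_div, Finset.mul_sum]
          rw [e]
          exact Finset.single_le_sum
            (f := fun y => ∏ i, Real.exp (L * (P y i (ζ i) / B)))
            (fun y _ => Finset.prod_nonneg fun i _ => (Real.exp_pos _).le) (Finset.mem_univ y)
      _ = ∑ y : Y, ∑ ζ : ι → X, ∏ i, Real.exp (L * (P y i (ζ i) / B)) := Finset.sum_comm
      _ = ∑ y : Y, ∏ i, ∑ x, Real.exp (L * (P y i x / B)) := by
          refine Finset.sum_congr rfl fun y _ => ?_
          rw [Finset.prod_univ_sum, Fintype.piFinset_univ]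
      _ ≤ ∑ y : Y, ∏ i, ((Fintype.card X : ℝ) * Real.exp (m i / B)) := by
          refine Finset.sum_le_sum fun y _ => ?_
          refine Finset.prod_le_prod (fun i _ => Finset.sum_nonneg fun x _ => (Real.exp_pos _).le)
            fun i _ => hinner y i
      _ = Fintype.card Y * (Fintype.card (ι → X) * Real.exp (M / B)) := by
          rw [Finset.sum_const, Finset.prod_mul_distrib, ← Real.exp_sum, ← Finset.sum_div, hN,
            nsmul_eq_mul]
          simp [hM]
      _ ≤ 4 ^ f * (Fintype.card (ι → X) * Real.exp (M / B)) := by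
          have : (Fintype.card Y : ℝ) ≤ 4 ^ f := by exact_mod_cast hY
          gcongr
  set A : ℝ := 2 * f + M / (B * L) with hA
  have hLA : Real.exp (-(L * A)) * (4 ^ f * Real.exp (M / B)) = 1 := by
    have e1 : (4 : ℝ) ^ f = Real.exp (L * (2 * f)) := by
      have : Real.exp (L * (2 * f)) = (Real.exp (L * 2)) ^ f := by
        rw [← Real.exp_nat_mul]
        congr 1
        ring
      rw [this]
      congr 1
      rw [mul_two, Real.exp_add, hLdef, Real.exp_log (by norm_num)]
      norm_num
    rw [e1, ← Real.exp_add, ← Real.exp_add, ← Real.exp_zero]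
    congr 1
    rw [hA]
    field_simp
    ring
  have hpt : ∀ ζ, S ζ ≤ B * A + B * (Real.exp (-(L * A)) * Real.exp (L * (S ζ / B))) := by
    intro ζ
    have h2 := supbd_lin (S ζ / B - A)
    have h3 : Real.exp (Real.log 2 * (S ζ / B - A)) =
        Real.exp (-(L * A)) * Real.exp (L * (S ζ / B)) := by
      rw [← Real.exp_add]
      congr 1
      rw [← hLdef]
      ring
    rw [h3] at h2
    have h4 : B * (S ζ / B - A) ≤ B * (Real.exp (-(L * A)) * Real.exp (L * (S ζ / B))) :=
      mul_le_mul_of_nonneg_left h2 hB.le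
    have h5 : B * (S ζ / B - A) = S ζ - B * A := by
      field_simp
    linarith
  have hN0 : (0 : ℝ) ≤ Fintype.card (ι → X) := Nat.cast_nonneg _
  have hfin : B * A ≤ B * (2 * f) + 3 / 2 * M := by
    have e : B * A = B * (2 * f) + M / L := by
      rw [hA]
      field_simp
    rw [e]
    have : M / L ≤ 3 / 2 * M := by
      rw [div_le_iff₀ hL0]
      nlinarith
    linarith
  calc ∑ ζ, S ζ ≤ ∑ ζ : ι → X,
        (B * A + B * (Real.exp (-(L * A)) * Real.exp (L * (S ζ / B)))) :=
        Finset.sum_le_sum fun ζ _ => hpt ζ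
    _ = Fintype.card (ι → X) * (B * A) +
        B * (Real.exp (-(L * A)) * ∑ ζ, Real.exp (L * (S ζ / B))) := by
        rw [Finset.sum_add_distrib, ← Finset.mul_sum, ← Finset.mul_sum, ← Finset.mul_sum,
          Finset.sum_const, nsmul_eq_mul, Finset.card_univ]
        ring
    _ ≤ Fintype.card (ι → X) * (B * A) +
        B * (Real.exp (-(L * A)) * (4 ^ f * (Fintype.card (ι → X) * Real.exp (M / B)))) := by
        gcongr
    _ = Fintype.card (ι → X) * (B * A) +
        B * Fintype.card (ι → X) * (Real.exp (-(L * A)) * (4 ^ f * Real.exp (M / B))) := by ring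
    _ = Fintype.card (ι → X) * (B * A + B) := by
        rw [hLA]
        ring
    _ ≤ Fintype.card (ι → X) * (B * (2 * f + 1) + 3 / 2 * M) := by
        refine mul_le_mul_of_nonneg_left ?_ hN0
        linarith

end Pool.Agent.Lib.MP_6d8312_an.Q
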