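import Pool.Agent.Lib.MP_6d8312_an.Q.Second

/-! # The choice of the phases of the small set -/

set_option autoImplicit false

noncomputable section

namespace Pool.Agent.Lib.MP_6d8312_an.Q

private theorem xi_equi {A B : Type} [AddCommGroup A] [AddCommGroup B] [Fintype A] [Fintype B]
    (φ : A →+ B) (hφ : Function.Surjective φ) (g : B → ℝ) :
    (Fintype.card B : ℝ) * ∑ a, g (φ a) = Fintype.card A * ∑ b, g b := by
  have h1 : ∀ b', ∑ a, g (φ a + b') = ∑ a, g (φ a) := by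
    intro b'
    obtain ⟨a', rfl⟩ := hφ b'
    rw [← Equiv.sum_comp (Equiv.addRight a') fun a => g (φ a)]
    simp
  calc (Fintype.card B : ℝ) * ∑ a, g (φ a) = ∑ _b : B, ∑ a, g (φ a) := by
        rw [Finset.sum_const, nsmul_eq_mul, Finset.card_univ]
    _ = ∑ b : B, ∑ a, g (φ a + b) := Finset.sum_congr rfl fun b _ => (h1 b).symm
    _ = ∑ a, ∑ b : B, g (φ a + b) := Finset.sum_comm
    _ = ∑ _a : A, ∑ b : B, g b := by
        refine Finset.sum_congr rfl fun a _ => ?_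
        exact Equiv.sum_comp (Equiv.addLeft (φ a)) g
    _ = _ := by rw [Finset.sum_const, nsmul_eq_mul, Finset.card_univ]

private def xi_ext {K : ℕ} (F : Finset ℤ) (ξ : F → Fin K → ZMod 8) (x : ℤ) : Fin K → ZMod 8 :=
  if h : x ∈ F then ξ ⟨x, h⟩ else 0

private def xi_hom {K : ℕ} (F S S' : Finset ℤ) : (F → Fin K → ZMod 8) →+ (Fin K → ZMod 8) where
  toFun ξ := ∑ x ∈ S, xi_ext F ξ x - ∑ x ∈ S', xi_ext F ξ x
  map_zero' := by
    have : ∀ x, xi_ext F (0 : F → Fin K → ZMod 8) x = 0 := by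
      intro x
      unfold xi_ext
      split_ifs <;> rfl
    simp [this]
  map_add' := by
    intro a b
    have : ∀ x, xi_ext F (a + b) x = xi_ext F a x + xi_ext F b x := by
      intro x
      unfold xi_ext
      split_ifs <;> simp
    simp only [this, Finset.sum_add_distrib]
    abel

private theorem xi_surj {K : ℕ} (F S S' : Finset ℤ) (hS : S ⊆ F) (hS' : S' ⊆ F) (hne : S ≠ S') :
    Function.Surjective (xi_hom (K := K) F S S') := by
  classical
  intro η
  have key : ∀ (x : ℤ) (hx : x ∈ F) (G : Finset ℤ),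
      ∑ y ∈ G, xi_ext F (Pi.single (⟨x, hx⟩ : F) η) y = if x ∈ G then η else 0 := by
    intro x hx G
    have : ∀ y, xi_ext F (Pi.single (⟨x, hx⟩ : F) η) y = if x = y then η else 0 := by
      intro y
      unfold xi_ext
      by_cases h : y ∈ F
      · rw [dif_pos h]
        by_cases h' : x = y
        · subst h'
          simp
        · rw [if_neg h', Pi.single_eq_of_ne]
          intro e
          exact h' (congrArg Subtype.val e).symm
      · rw [dif_neg h, if_neg]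
        rintro rfl
        exact h hx
    simp only [this, Finset.sum_ite_eq]
  have : ∃ x, (x ∈ S ∧ x ∉ S') ∨ (x ∉ S ∧ x ∈ S') := by
    by_contra h
    push Not at h
    apply hne
    ext x
    have := h x
    tauto
  obtain ⟨x, ⟨h1, h2⟩ | ⟨h1, h2⟩⟩ := this
  · refine ⟨Pi.single (⟨x, hS h1⟩ : F) η, ?_⟩
    change ∑ y ∈ S, xi_ext F _ y - ∑ y ∈ S', xi_ext F _ y = η
    rw [key, key, if_pos h1, if_neg h2, sub_zero]
  · refine ⟨-Pi.single (⟨x, hS' h2⟩ : F) η, ?_⟩
    rw [map_neg]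
    change -(∑ y ∈ S, xi_ext F _ y - ∑ y ∈ S', xi_ext F _ y) = η
    rw [key, key, if_neg h1, if_pos h2, zero_sub, neg_neg]

private theorem xi_prod (K : ℕ) :
    ∑ b : Fin K → ZMod 8, ∏ κ, (1 + (1 / 2) * cs (b κ)) ^ 2 = 9 ^ K := by
  have h := Finset.prod_univ_sum (fun _ : Fin K => (Finset.univ : Finset (ZMod 8)))
    (fun _ x => (1 + (1 / 2) * cs x) ^ 2)
  rw [Fintype.piFinset_univ] at h
  rw [← h, Finset.prod_congr rfl fun κ _ => sum_cs_sq]
  simp

theorem exists_xi (K d : ℕ) (hd : 2 ^ K ≤ d) {ι : Type} [Fintype ι] (F : Finset ℤ)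
    (T : ι → Fin d → Finset ℤ) (hT : ∀ i l, T i l ⊆ F) (hinj : ∀ i, Function.Injective (T i)) :
    ∃ ξ : ℤ → Fin K → ZMod 8,
      ∑ i, HS (fun l κ => ∑ x ∈ T i l, ξ x κ) ≤
        2 * (9 / 8 : ℝ) ^ K * (d : ℝ) ^ 2 * Fintype.card ι := by
  classical
  set N : ℝ := (Fintype.card (F → Fin K → ZMod 8) : ℝ) with hN
  have hcs0 : cs 0 = 1 := by simp [cs]
  -- the average of one term
  have hterm : ∀ i l l', ∑ ξ : F → Fin K → ZMod 8,
      ∏ κ, (1 + (1 / 2) * cs (∑ x ∈ T i l, xi_ext F ξ x κ - ∑ x ∈ T i l', xi_ext F ξ x κ)) ^ 2 ≤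
      N * (if l = l' then (9 / 4) ^ K else (9 / 8) ^ K) := by
    intro i l l'
    by_cases h : l = l'
    · subst h
      rw [if_pos rfl]
      simp only [sub_self, hcs0]
      rw [Finset.sum_const, nsmul_eq_mul, Finset.card_univ, Finset.prod_const, Finset.card_univ,
        Fintype.card_fin, ← hN]
      have e : ((1 : ℝ) + 1 / 2 * 1) ^ 2 = 9 / 4 := by norm_num
      rw [e]
    · rw [if_neg h]
      have hne : T i l ≠ T i l' := fun e => h (hinj i e)
      have h1 := xi_equi (xi_hom (K := K) F (T i l) (T i l'))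
        (xi_surj F _ _ (hT i l) (hT i l') hne)
        (fun b => ∏ κ, (1 + (1 / 2) * cs (b κ)) ^ 2)
      rw [xi_prod] at h1
      have h2 : ∀ (ξ : F → Fin K → ZMod 8) (κ : Fin K),
          (xi_hom F (T i l) (T i l') ξ) κ =
          ∑ x ∈ T i l, xi_ext F ξ x κ - ∑ x ∈ T i l', xi_ext F ξ x κ := by
        intro ξ κ
        change (∑ x ∈ T i l, xi_ext F ξ x - ∑ x ∈ T i l', xi_ext F ξ x) κ = _
        simp
      simp only [h2] at h1
      have h3 : (Fintype.card (Fin K → ZMod 8) : ℝ) = 8 ^ K := by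
        rw [Fintype.card_fun, ZMod.card, Fintype.card_fin]
        norm_num
      rw [h3] at h1
      have h4 : (0 : ℝ) < 8 ^ K := by positivity
      rw [← hN] at h1
      have h5 : N * (9 / 8 : ℝ) ^ K = (N * 9 ^ K) / 8 ^ K := by
        rw [div_pow]
        ring
      rw [h5, ← h1, mul_div_cancel_left₀ _ h4.ne']
  have hHS : ∀ i, ∑ ξ : F → Fin K → ZMod 8, HS (fun l κ => ∑ x ∈ T i l, xi_ext F ξ x κ) ≤
      N * (2 * (9 / 8 : ℝ) ^ K * (d : ℝ) ^ 2) := by
    intro i
    unfold HS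
    calc ∑ ξ : F → Fin K → ZMod 8, ∑ l, ∑ l', ∏ κ, (1 + (1 / 2) * cs
          (∑ x ∈ T i l, xi_ext F ξ x κ - ∑ x ∈ T i l', xi_ext F ξ x κ)) ^ 2
        = ∑ l, ∑ l', ∑ ξ : F → Fin K → ZMod 8, ∏ κ, (1 + (1 / 2) * cs
          (∑ x ∈ T i l, xi_ext F ξ x κ - ∑ x ∈ T i l', xi_ext F ξ x κ)) ^ 2 := by
          rw [Finset.sum_comm]
          exact Finset.sum_congr rfl fun l _ => Finset.sum_comm
      _ ≤ ∑ l : Fin d, ∑ l' : Fin d, N * (if l = l' then (9 / 4) ^ K else (9 / 8) ^ K) :=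
          Finset.sum_le_sum fun l _ => Finset.sum_le_sum fun l' _ => hterm i l l'
      _ ≤ ∑ l : Fin d, ∑ l' : Fin d,
            N * ((if l = l' then (9 / 4 : ℝ) ^ K else 0) + (9 / 8) ^ K) := by
          refine Finset.sum_le_sum fun l _ => Finset.sum_le_sum fun l' _ => ?_
          refine mul_le_mul_of_nonneg_left ?_ (Nat.cast_nonneg _)
          split_ifs
          · have : (0 : ℝ) ≤ (9 / 8) ^ K := by positivity
            linarith
          · simp
      _ = N * (d * (9 / 4 : ℝ) ^ K + (d : ℝ) ^ 2 * (9 / 8) ^ K) := by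
          simp only [← Finset.mul_sum, Finset.sum_add_distrib, Finset.sum_ite_eq,
            Finset.mem_univ, if_true, Finset.sum_const, Finset.card_univ, Fintype.card_fin,
            nsmul_eq_mul]
          ring
      _ ≤ N * (2 * (9 / 8 : ℝ) ^ K * (d : ℝ) ^ 2) := by
          refine mul_le_mul_of_nonneg_left ?_ (Nat.cast_nonneg _)
          have h1 : (9 / 4 : ℝ) ^ K = 2 ^ K * (9 / 8) ^ K := by
            rw [← mul_pow]
            norm_num
          have h2 : (2 : ℝ) ^ K ≤ d := by exact_mod_cast hd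
          have h3 : (0 : ℝ) ≤ (9 / 8) ^ K := by positivity
          have h4 : (0 : ℝ) ≤ d := Nat.cast_nonneg _
          have h5 : (d : ℝ) * (2 ^ K * (9 / 8) ^ K) ≤ d * (d * (9 / 8) ^ K) := by gcongr
          rw [h1]
          nlinarith
  have hsum : ∑ ξ : F → Fin K → ZMod 8, ∑ i, HS (fun l κ => ∑ x ∈ T i l, xi_ext F ξ x κ) ≤
      ∑ _ξ : F → Fin K → ZMod 8, 2 * (9 / 8 : ℝ) ^ K * (d : ℝ) ^ 2 * Fintype.card ι := by
    rw [Finset.sum_comm]
    calc ∑ i, ∑ ξ : F → Fin K → ZMod 8, HS (fun l κ => ∑ x ∈ T i l, xi_ext F ξ x κ)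
        ≤ ∑ _i : ι, N * (2 * (9 / 8 : ℝ) ^ K * (d : ℝ) ^ 2) :=
          Finset.sum_le_sum fun i _ => hHS i
      _ = _ := by
          rw [Finset.sum_const, Finset.sum_const, nsmul_eq_mul, nsmul_eq_mul, Finset.card_univ,
            Finset.card_univ]
          ring
  obtain ⟨ξ, _, hξ⟩ := Finset.exists_le_of_sum_le Finset.univ_nonempty hsum
  exact ⟨xi_ext F ξ, hξ⟩

end Pool.Agent.Lib.MP_6d8312_an.Q
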