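import Pool.Agent.Lib.MP_6d8312_an.Q.AvgNum
import Pool.Agent.Lib.MP_6d8312_an.Q.Xi
import Pool.Agent.Lib.MP_6d8312_an.Q.SupBd
import Pool.Agent.Lib.MP_6d8312_an.Q.Net

/-! # The free model -/

set_option autoImplicit false

noncomputable section

namespace Pool.Agent.Lib.MP_6d8312_an.Q

private lemma Free_marg {ι X : Type} [Fintype ι] [DecidableEq ι] [Fintype X] (g : X → ℂ) (i : ι) :
    (Fintype.card X : ℂ) * ∑ ζ : ι → X, g (ζ i) = Fintype.card (ι → X) * ∑ x, g x := by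
  have h1 : ∑ ζ : ι → X, g (ζ i) = ∏ j : ι, ∑ x : X, (if j = i then g x else 1) := by
    rw [Finset.prod_univ_sum]
    simp only [Fintype.piFinset_univ]
    refine Finset.sum_congr rfl fun ζ _ => ?_
    rw [Finset.prod_ite_eq' Finset.univ i (fun j => g (ζ j)), if_pos (Finset.mem_univ i)]
  rw [h1, ← Finset.mul_prod_erase Finset.univ _ (Finset.mem_univ i)]
  simp only [if_true]
  have h2 : ∏ j ∈ Finset.univ.erase i, ∑ x : X, (if j = i then g x else 1) =
      (Fintype.card X : ℂ) ^ (Fintype.card ι - 1) := by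
    rw [Finset.prod_congr rfl (g := fun _ => (Fintype.card X : ℂ))]
    · rw [Finset.prod_const, Finset.card_erase_of_mem (Finset.mem_univ i), Finset.card_univ]
    · intro j hj
      simp [Finset.ne_of_mem_erase hj]
  rw [h2, Fintype.card_fun]
  have h3 : Fintype.card ι = (Fintype.card ι - 1) + 1 := by
    have : 0 < Fintype.card ι := Fintype.card_pos_iff.2 ⟨i⟩
    omega
  push_cast
  conv_rhs => rw [h3, pow_succ]
  ring

theorem free_model (k K d : ℕ) (hK : 2 ^ K ≤ d) {ι : Type} [Fintype ι] [Nonempty ι]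
    [DecidableEq ι] (F : Finset ℤ) (hF : F.Nonempty) (T : ι → Fin d → Finset ℤ)
    (hT : ∀ i l, T i l ⊆ F) (hinj : ∀ i, Function.Injective (T i)) (t : ι → ℕ)
    (ht : ∀ i l, (T i l).card = t i) (htk : ∀ i, t i ≤ k)
    (hL : 3 * 2 ^ K * F.card ≤ Fintype.card ι) :
    ∃ (ξ : ℤ → Fin K → ZMod 8) (ζ : ι → Fin K → ZMod 8) (w : ι → Fin d → ℂ) (D₀ : ℝ), 0 < D₀ ∧
      (∀ z : ℤ → ℂ, (∀ x, ‖z x‖ ≤ 1) → ∑ i, ‖∑ l, w i l * ∏ x ∈ T i l, z x‖ ≤ D₀) ∧
      1 / (6 * 2 ^ k) * (113 / 100 : ℝ) ^ K * D₀ ≤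
        ‖∑ i, ∑ l, w i l *
          Complex.exp (Complex.I * (ph (fun κ => ζ i κ + ∑ x ∈ T i l, ξ x κ) : ℂ))‖ := by
  classical
  obtain ⟨ξ, hξ⟩ := exists_xi K d hK F T hT hinj
  set X : ι → Fin d → Fin K → ZMod 8 := fun i l κ => ∑ x ∈ T i l, ξ x κ with hX
  have hd1 : 1 ≤ d := le_trans Nat.one_le_two_pow hK
  have hdR : (1 : ℝ) ≤ d := by exact_mod_cast hd1
  obtain ⟨s, hs⟩ : ∃ s : ℝ, s = (103 / 100 : ℝ) ^ K := ⟨_, rfl⟩
  have hs1 : 1 ≤ s := by rw [hs]; exact one_le_pow₀ (by norm_num)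
  have hs0 : 0 < s := by linarith
  have hs4 : (9 / 8 : ℝ) ^ K ≤ s ^ 4 := by
    rw [hs, ← pow_mul, mul_comm K 4, pow_mul]
    exact pow_le_pow_left₀ (by norm_num) (by norm_num) K
  set M : ℝ := (Fintype.card ι : ℝ) with hM
  have hM1 : 1 ≤ M := by
    have : 1 ≤ Fintype.card ι := Fintype.card_pos
    rw [hM]
    exact_mod_cast this
  have hf1 : (1 : ℝ) ≤ F.card := by
    have := hF.card_pos
    exact_mod_cast this
  have hLR : 3 * 2 ^ K * (F.card : ℝ) ≤ M := by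
    rw [hM]
    exact_mod_cast hL
  -- the data for the union bound
  let P : (F → Fin 4) → ι → (Fin K → ZMod 8) → ℝ := fun y i Z =>
    ‖∑ l, om (fun κ => Z κ + X i l κ) * netv y (T i l)‖
  let m : ι → ℝ := fun i => HS (X i) / (4 * s ^ 3 * d) + 3 / 4 * s * d
  have hB : (0 : ℝ) < 2 ^ K * d := by positivity
  have hP0 : ∀ y i Z, 0 ≤ P y i Z := fun y i Z => norm_nonneg _
  have hPB : ∀ y i Z, P y i Z ≤ 2 ^ K * d := by
    intro y i Z
    refine (norm_sum_le _ _).trans ?_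
    calc ∑ l : Fin d, ‖om (fun κ => Z κ + X i l κ) * netv y (T i l)‖
        ≤ ∑ _l : Fin d, (2 : ℝ) ^ K := by
          refine Finset.sum_le_sum fun l _ => ?_
          rw [norm_mul, norm_netv, mul_one]
          exact norm_om_le _
      _ = 2 ^ K * d := by
          rw [Finset.sum_const, Finset.card_univ, Fintype.card_fin, nsmul_eq_mul, mul_comm]
  have hcX : Fintype.card (Fin K → ZMod 8) = 8 ^ K := by
    rw [Fintype.card_fun, ZMod.card, Fintype.card_fin]
  have hPm : ∀ y i, ∑ Z, P y i Z ≤ m i * Fintype.card (Fin K → ZMod 8) := by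
    intro y i
    have h1 := second_moment hd1 (X i) (fun l => netv y (T i l)) (fun l => (norm_netv _ _).le) s
      hs0
    rw [hcX]
    push_cast
    rw [mul_comm]
    exact h1
  have hY : Fintype.card (F → Fin 4) ≤ 4 ^ F.card := by
    rw [Fintype.card_fun, Fintype.card_fin, Fintype.card_coe]
  have hmax : ∀ ζ : ι → Fin K → ZMod 8, ∃ y₀ : F → Fin 4, ∀ y,
      ∑ i, P y i (ζ i) ≤ ∑ i, P y₀ i (ζ i) := fun ζ =>
    Finite.exists_max (fun y : F → Fin 4 => ∑ i, P y i (ζ i))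
  choose ym hym using hmax
  let S : (ι → Fin K → ZMod 8) → ℝ := fun ζ => ∑ i, P (ym ζ) i (ζ i)
  have hS0 : ∀ ζ, 0 ≤ S ζ := fun ζ => Finset.sum_nonneg fun i _ => hP0 _ _ _
  have hsup := sup_bound P (2 ^ K * d) hB hP0 hPB m hPm F.card hY S fun ζ => ⟨ym ζ, rfl⟩
  set N : ℝ := (Fintype.card (ι → Fin K → ZMod 8) : ℝ) with hN
  have hN0 : 0 < N := by
    rw [hN]
    exact_mod_cast Fintype.card_pos
  have hsumm : ∑ i, m i ≤ 5 / 4 * s * (d * M) := by
    have h1 : ∑ i, m i = (∑ i, HS (X i)) / (4 * s ^ 3 * d) + M * (3 / 4 * s * d) := by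
      simp only [m]
      rw [Finset.sum_add_distrib, Finset.sum_div, Finset.sum_const, Finset.card_univ,
        nsmul_eq_mul]
    have h2 : (∑ i, HS (X i)) / (4 * s ^ 3 * d) ≤ 1 / 2 * s * (d * M) := by
      rw [div_le_iff₀ (by positivity)]
      calc ∑ i, HS (X i) ≤ 2 * (9 / 8 : ℝ) ^ K * (d : ℝ) ^ 2 * M := hξ
        _ ≤ 2 * s ^ 4 * (d : ℝ) ^ 2 * M := by gcongr
        _ = 1 / 2 * s * (d * M) * (4 * s ^ 3 * d) := by ring
    rw [h1]
    linarith
  have hsum1 : ∑ ζ, S ζ ≤ N * (3 * s * (d * M)) := by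
    refine hsup.trans (mul_le_mul_of_nonneg_left ?_ hN0.le)
    have h1 : 2 ^ K * (d : ℝ) * (2 * F.card + 1) ≤ d * M := by
      calc 2 ^ K * (d : ℝ) * (2 * F.card + 1) ≤ 2 ^ K * (d : ℝ) * (3 * F.card) := by
            gcongr
            linarith
        _ = d * (3 * 2 ^ K * F.card) := by ring
        _ ≤ d * M := by gcongr
    have h2 : (0 : ℝ) ≤ d * M := by positivity
    nlinarith
  -- the numerator
  let Nu : (ι → Fin K → ZMod 8) → ℂ := fun ζ => ∑ i, ∑ l, om (fun κ => ζ i κ + X i l κ) *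
    Complex.exp (Complex.I * (ph (fun κ => ζ i κ + X i l κ) : ℂ))
  have hNu : ∑ ζ, Nu ζ = (N : ℂ) * (gain : ℂ) ^ K * (d * M : ℝ) := by
    have h1 : ∀ (i : ι) (l : Fin d), ∑ ζ : ι → Fin K → ZMod 8,
        om (fun κ => ζ i κ + X i l κ) *
          Complex.exp (Complex.I * (ph (fun κ => ζ i κ + X i l κ) : ℂ)) =
        (N : ℂ) * (gain : ℂ) ^ K := by
      intro i l
      have h2 := Free_marg (fun Z : Fin K → ZMod 8 => om (fun κ => Z κ + X i l κ) *
        Complex.exp (Complex.I * (ph (fun κ => Z κ + X i l κ) : ℂ))) i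
      rw [avg_num (X i l), hcX] at h2
      have h8 : ((8 : ℂ) ^ K) ≠ 0 := pow_ne_zero _ (by norm_num)
      have h3 : (8 : ℂ) ^ K * ∑ ζ : ι → Fin K → ZMod 8, om (fun κ => ζ i κ + X i l κ) *
          Complex.exp (Complex.I * (ph (fun κ => ζ i κ + X i l κ) : ℂ)) =
          (8 : ℂ) ^ K * ((N : ℂ) * (gain : ℂ) ^ K) := by
        rw [hN]
        push_cast at h2 ⊢
        rw [h2]
        ring
      exact mul_left_cancel₀ h8 h3
    calc ∑ ζ, Nu ζ = ∑ i, ∑ l : Fin d, ∑ ζ : ι → Fin K → ZMod 8,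
        om (fun κ => ζ i κ + X i l κ) *
          Complex.exp (Complex.I * (ph (fun κ => ζ i κ + X i l κ) : ℂ)) := by
          simp only [Nu]
          rw [Finset.sum_comm]
          refine Finset.sum_congr rfl fun i _ => ?_
          rw [Finset.sum_comm]
      _ = ∑ _i : ι, ∑ _l : Fin d, (N : ℂ) * (gain : ℂ) ^ K :=
          Finset.sum_congr rfl fun i _ => Finset.sum_congr rfl fun l _ => h1 i l
      _ = (N : ℂ) * (gain : ℂ) ^ K * (d * M : ℝ) := by
          rw [Finset.sum_const, Finset.sum_const, Finset.card_univ, Finset.card_univ,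
            Fintype.card_fin, nsmul_eq_mul, nsmul_eq_mul, hM]
          push_cast
          ring
  have hNuR : ∑ ζ, (Nu ζ).re = N * gain ^ K * (d * M) := by
    rw [← Complex.re_sum, hNu]
    have : (N : ℂ) * (gain : ℂ) ^ K * (d * M : ℝ) = ((N * gain ^ K * (d * M) : ℝ) : ℂ) := by
      push_cast
      ring
    rw [this, Complex.ofReal_re]
  have hg0 : 0 < gain := lt_of_lt_of_le (by norm_num) gain_ge
  -- the choice of ζ
  obtain ⟨ζ, hζ⟩ : ∃ ζ, gain ^ K / (6 * s) * (S ζ + d * M) < (Nu ζ).re := by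
    by_contra hcon
    push Not at hcon
    have h1 : ∑ ζ, (Nu ζ).re ≤ ∑ ζ, gain ^ K / (6 * s) * (S ζ + d * M) :=
      Finset.sum_le_sum fun ζ _ => hcon ζ
    rw [hNuR, ← Finset.mul_sum, Finset.sum_add_distrib, Finset.sum_const, Finset.card_univ,
      nsmul_eq_mul, ← hN] at h1
    have h2 : gain ^ K / (6 * s) * (∑ ζ, S ζ + N * (d * M)) ≤
        gain ^ K / (6 * s) * (N * (4 * s * (d * M))) := by
      refine mul_le_mul_of_nonneg_left ?_ (by positivity)
      have h3 : N * (d * M) ≤ N * (s * (d * M)) := by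
        have : (0 : ℝ) ≤ d * M := by positivity
        refine mul_le_mul_of_nonneg_left ?_ hN0.le
        nlinarith
      linarith
    have h3 : gain ^ K / (6 * s) * (N * (4 * s * (d * M))) = 2 / 3 * (N * gain ^ K * (d * M)) := by
      field_simp
      ring
    have h4 : 0 < N * gain ^ K * (d * M) := by positivity
    linarith
  refine ⟨ξ, ζ, fun i l => om (fun κ => ζ i κ + X i l κ), 2 ^ k * (S ζ + d * M), ?_, ?_, ?_⟩
  · have := hS0 ζ
    positivity
  · intro z hz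
    obtain ⟨y, hy⟩ := net_bound d k F T hT t ht htk (fun i l => om (fun κ => ζ i κ + X i l κ))
      z hz
    refine hy.trans (mul_le_mul_of_nonneg_left ?_ (by positivity))
    have h1 : ∑ i, P y i (ζ i) ≤ S ζ := hym ζ y
    have h2 : (0 : ℝ) ≤ d * M := by positivity
    linarith
  · have h1 : ‖Nu ζ‖ = ‖∑ i, ∑ l, om (fun κ => ζ i κ + X i l κ) *
        Complex.exp (Complex.I * (ph (fun κ => ζ i κ + ∑ x ∈ T i l, ξ x κ) : ℂ))‖ := rfl
    rw [← h1]
    have h2 : (Nu ζ).re ≤ ‖Nu ζ‖ := Complex.re_le_norm _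
    have h3 : (113 / 100 : ℝ) ^ K * s ≤ gain ^ K := by
      rw [hs, ← mul_pow]
      exact pow_le_pow_left₀ (by norm_num) ((by norm_num : (113 / 100 : ℝ) * (103 / 100) ≤
        7 / 6).trans gain_ge) K
    have h4 : 1 / (6 * 2 ^ k) * (113 / 100 : ℝ) ^ K * (2 ^ k * (S ζ + d * M)) =
        1 / 6 * (113 / 100 : ℝ) ^ K * (S ζ + d * M) := by
      field_simp
    have h5 : 1 / 6 * (113 / 100 : ℝ) ^ K ≤ gain ^ K / (6 * s) := by
      rw [le_div_iff₀ (by positivity)]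
      linarith
    have h6 : 0 ≤ S ζ + d * M := by
      have := hS0 ζ
      positivity
    rw [h4]
    have h7 := mul_le_mul_of_nonneg_right h5 h6
    linarith

end Pool.Agent.Lib.MP_6d8312_an.Q
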