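import Pool.Agent.Lib.MP_6d8312_an.Mg.G011

/-! # Prescribed phases on the signed sums of one pattern -/

set_option autoImplicit false

noncomputable section

namespace Pool.Agent.Lib.MP_6d8312_an.Q

private theorem Phase_e_sum (G : Finset ℤ) (φ : ℤ → ℝ) :
    ∏ x ∈ G, e (φ x) = e (∑ x ∈ G, φ x) := by
  classical
  induction G using Finset.induction_on with
  | empty => simp [e_zero]
  | insert a G ha ih => rw [Finset.prod_insert ha, Finset.sum_insert ha, ih, e_add]

theorem exists_phase {E : Set ℤ} (hE : Dissociate E) (V : Finset ℤ) (hV : (V : Set ℤ) ⊆ E)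
    (s : ℤ → ℤ) (hs : IsSign s) (φ : ℤ → ℝ) (j : ℕ) :
    ∃ U : ℤ → ℝ, RTP (2 ^ j) U ∧ ∀ G : Finset ℤ, G ⊆ V → G.card = j →
      U (SS s G) = Real.cos (2 * Real.pi * ∑ x ∈ G, φ x) := by
  obtain ⟨F, hF, h1, _⟩ := riesz hE (fun x => e ((s x : ℝ) * φ x)) (fun x => (norm_e _).le) V hV
    (∑ x ∈ V, x.natAbs)
  refine ⟨fun n => 2 ^ j * (F n).re, ?_, ?_⟩
  · have h2 := RTP.smul (2 ^ j) (RTP.re hF)
    rw [mul_one, abs_of_nonneg (by positivity)] at h2
    exact h2
  · intro G hG hj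
    have hR : |SS s G| ≤ ((∑ x ∈ V, x.natAbs : ℕ) : ℤ) := by
      rw [SS]
      refine (Finset.abs_sum_le_sum_abs _ _).trans ?_
      have e1 : ∀ x ∈ G, |s x * x| = (x.natAbs : ℤ) := by
        intro x _
        rw [abs_mul, Int.natCast_natAbs]
        rcases hs x with h | h <;> simp [h]
      rw [Finset.sum_congr rfl e1]
      push_cast
      exact Finset.sum_le_sum_of_subset_of_nonneg hG (fun _ _ _ => abs_nonneg _)
    have h2 : F (SS s G) = cof (fun x => e ((s x : ℝ) * φ x)) s G := h1 G s hG hs hR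
    have h3 : cof (fun x => e ((s x : ℝ) * φ x)) s G = (1 / 2) ^ j * e (∑ x ∈ G, φ x) := by
      have e1 : ∀ x ∈ G, (if s x = 1 then e ((s x : ℝ) * φ x) / 2 else
          (starRingEnd ℂ) (e ((s x : ℝ) * φ x)) / 2) = (1 / 2) * e (φ x) := by
        intro x _
        rcases hs x with h | h
        · rw [if_pos h, h, Int.cast_one, one_mul]
          ring
        · rw [if_neg (by rw [h]; norm_num), tps_e_conj, h]
          have e2 : -(((-1 : ℤ) : ℝ) * φ x) = φ x := by
            push_cast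
            ring
          rw [e2]
          ring
      rw [cof, Finset.prod_congr rfl e1, Finset.prod_mul_distrib, Finset.prod_const, hj,
        Phase_e_sum]
    change 2 ^ j * (F (SS s G)).re = _
    rw [h2, h3]
    have h4 : ((1 / 2 : ℂ) ^ j * e (∑ x ∈ G, φ x)) =
        (((1 / 2 : ℝ) ^ j : ℝ) : ℂ) * e (∑ x ∈ G, φ x) := by
      push_cast
      rfl
    have h5 : (e (∑ x ∈ G, φ x)).re = Real.cos (2 * Real.pi * ∑ x ∈ G, φ x) := by
      unfold e
      rw [show (2 * (Real.pi : ℂ) * (((∑ x ∈ G, φ x : ℝ)) : ℂ) * Complex.I) =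
        ((2 * Real.pi * (∑ x ∈ G, φ x) : ℝ) : ℂ) * Complex.I by push_cast; ring]
      exact Complex.exp_ofReal_mul_I_re _
    rw [h4, Complex.re_ofReal_mul, h5, ← mul_assoc, ← mul_pow]
    norm_num

end Pool.Agent.Lib.MP_6d8312_an.Q
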