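import Pool.Agent.Lib.MP_6d8312_an.Q.Cs

/-! # The choice of the phases of the large sets -/

set_option autoImplicit false

noncomputable section

namespace Pool.Agent.Lib.MP_6d8312_an.Q

theorem exists_phi (I F : Finset ℤ) (S : ℤ → Finset ℤ)
    (hS : ∀ i ∈ I, (S i).Nonempty ∧ Disjoint (S i) F)
    (hd : ∀ i ∈ I, ∀ i' ∈ I, i ≠ i' → Disjoint (S i) (S i')) (ξ ζ : ℤ → ZMod 8) :
    ∃ φ : ℤ → ℝ, ∀ i ∈ I, ∀ T : Finset ℤ, T ⊆ F →
      Real.cos (2 * Real.pi * ∑ x ∈ S i ∪ T, φ x) = cs (ζ i + ∑ x ∈ T, ξ x) := by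
  classical
  have hr : ∀ i, ∃ x, i ∈ I → x ∈ S i := by
    intro i
    by_cases hi : i ∈ I
    · obtain ⟨x, hx⟩ := (hS i hi).1
      exact ⟨x, fun _ => hx⟩
    · exact ⟨0, fun h => absurd h hi⟩
  choose r hr using hr
  let f : ℤ → ZMod 8 := fun x => if x ∈ F then ξ x else ∑ i ∈ I, if x = r i then ζ i else 0
  refine ⟨fun x => ((f x).val : ℝ) / 8, ?_⟩
  intro i hi T hT
  rw [← cs_sum]
  congr 1
  have hdis : Disjoint (S i) T := Finset.disjoint_of_subset_right hT (hS i hi).2
  rw [Finset.sum_union hdis]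
  congr 1
  · have h1 : ∀ x ∈ S i, f x = if x = r i then ζ i else 0 := by
      intro x hx
      have hxF : x ∉ F := Finset.disjoint_left.1 (hS i hi).2 hx
      simp only [f, hxF, if_false]
      rw [Finset.sum_eq_single i]
      · intro i' hi' hne
        rw [if_neg]
        rintro rfl
        exact Finset.disjoint_left.1 (hd i hi i' hi' hne.symm) hx (hr i' hi')
      · intro h
        exact absurd hi h
    rw [Finset.sum_congr rfl h1, Finset.sum_ite_eq' (S i) (r i) (fun _ => ζ i),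
      if_pos (hr i hi)]
  · refine Finset.sum_congr rfl fun x hx => ?_
    simp only [f, hT hx, if_true]

end Pool.Agent.Lib.MP_6d8312_an.Q
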