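import Pool.Agent.Lib.MP_6d8312_an.Q.Pattern
import Pool.Agent.Lib.MP_6d8312_an.Q.Extract
import Pool.Agent.Lib.MP_6d8312_an.Q.Phase
import Pool.Agent.Lib.MP_6d8312_an.Q.Free
import Pool.Agent.Lib.MP_6d8312_an.Q.Family
import Pool.Agent.Lib.MP_6d8312_an.Q.Phi

/-! # Dense sets of signed sums have exponential growth -/

set_option autoImplicit false

noncomputable section

namespace Pool.Agent.Lib.MP_6d8312_an.Q

theorem growth_of_dense {E : Set ℤ} (hE : Dissociate E) (k : ℕ) (Λ : Set ℤ)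
    (h : ∀ C : ℕ, ∃ F : Finset ℤ, (F : Set ℤ) ⊆ E ∧ C * F.card < (Part Λ F k).ncard) :
    GrowthG Λ := by
  classical
  refine ⟨2 ^ k, 1 / (6 * 2 ^ k), 113 / 100, by positivity, by positivity, ?_, by norm_num, ?_⟩
  · rw [div_le_one (by positivity)]
    have : (1 : ℝ) ≤ 2 ^ k := one_le_pow₀ (by norm_num)
    linarith
  intro R K₀
  obtain ⟨K, hK⟩ : ∃ K, K = K₀ + 1 := ⟨_, rfl⟩
  have hd2 : 2 ≤ 2 ^ K := by
    rw [hK, pow_succ]
    have : 1 ≤ 2 ^ K₀ := Nat.one_le_two_pow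
    omega
  obtain ⟨D, hD1, hD⟩ := extraction k (3 * 2 ^ K) (2 ^ K) hd2
  obtain ⟨F, hFE, hF⟩ := h (D * (k + 1) * 2 ^ k + 2 * R + 1)
  obtain ⟨s, j, H, hs, hj, hH, hcard⟩ := signed_pattern hE k R D Λ F hFE hF
  have h0 : ∅ ∉ H := by
    intro h0
    have := (hH ∅ h0).2.2.2
    simp [SS] at this
    omega
  have hFne : F.Nonempty := by
    rw [Finset.nonempty_iff_ne_empty]
    rintro rfl
    simp only [Finset.card_empty, mul_zero] at hF
    obtain ⟨n, hn⟩ := (Set.ncard_pos (part_finite Λ ∅ k)).1 hF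
    obtain ⟨-, hn0, G, s', hG, -, -, hn1⟩ := hn
    have : G = ∅ := by
      rw [← Finset.coe_eq_empty]
      exact Set.subset_empty_iff.1 (by simpa using hG)
    subst this
    simp [SS] at hn1
    exact hn0 hn1
  obtain ⟨F₁, I, S, T, hF₁, hF₁ne, hIne, hL, hS, hdisj, hT⟩ :=
    hD j hj F H (fun G hG => ⟨(hH G hG).1, (hH G hG).2.1⟩) h0 hFne hcard
  have : Nonempty I := hIne.to_subtype
  have hcardT : ∀ i ∈ I, ∀ l, (T i l).card = j - (S i).card := by
    intro i hi l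
    have h1 := (hT i hi).2 l
    have h2 := (hH _ h1.2).2.1
    have h3 : Disjoint (S i) (T i l) := (hS i hi).2.2.mono_right h1.1
    rw [Finset.card_union_of_disjoint h3] at h2
    omega
  obtain ⟨ξ, ζ, w, D₀, hD₀, hsup, hbig⟩ := free_model k K (2 ^ K) le_rfl F₁ hF₁ne
    (fun i : I => T i) (fun i l => ((hT i i.2).2 l).1) (fun i => (hT i i.2).1)
    (fun i : I => j - (S i).card) (fun i l => hcardT i i.2 l) (fun i => by omega)
    (by rw [Fintype.card_coe]; exact hL)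
  have hphi : ∀ κ : Fin K, ∃ φ : ℤ → ℝ, ∀ i ∈ I, ∀ T' : Finset ℤ, T' ⊆ F₁ →
      Real.cos (2 * Real.pi * ∑ x ∈ S i ∪ T', φ x) =
        cs ((if h : i ∈ I then ζ ⟨i, h⟩ κ else 0) + ∑ x ∈ T', ξ x κ) := fun κ =>
    exists_phi I F₁ S (fun i hi => (hS i hi).2) hdisj (fun x => ξ x κ)
      (fun i => if h : i ∈ I then ζ ⟨i, h⟩ κ else 0)
  choose φ hφ using hphi
  choose U hU1 hU2 using fun κ => exists_phase hE F hFE s hs (φ κ) j
  obtain ⟨A, w', hA, hW, hsum⟩ := of_family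
    (fun p : I × Fin (2 ^ K) => SS s (S p.1 ∪ T p.1 p.2)) (fun p => w p.1 p.2 / D₀)
    (fun n => (1 / 2) * ∑ κ, U κ n)
  refine ⟨K, by omega, A, ?_, fun n => (1 / 2) * ∑ κ, U κ n, ?_, w', ?_, ?_⟩
  · intro n hn
    obtain ⟨⟨i, l⟩, rfl⟩ := hA n hn
    have h1 := hH _ ((hT i i.2).2 l).2
    exact ⟨h1.2.2.1, h1.2.2.2⟩
  · have h1 := RTP.smul (1 / 2) (RTP.sum Finset.univ (fun _ : Fin K => (2 : ℝ) ^ j) U
      fun κ _ => hU1 κ)
    refine h1.mono ?_
    rw [Finset.sum_const, Finset.card_univ, Fintype.card_fin, nsmul_eq_mul,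
      abs_of_pos (by norm_num : (0 : ℝ) < 1 / 2)]
    have h2 : (2 : ℝ) ^ j ≤ 2 ^ k := pow_le_pow_right₀ (by norm_num) hj
    have h3 : (0 : ℝ) ≤ K := Nat.cast_nonneg K
    have h4 : (0 : ℝ) ≤ 2 ^ j := by positivity
    nlinarith [mul_le_mul_of_nonneg_left h2 h3, mul_nonneg h3 h4]
  · intro θ
    rw [hW θ, Fintype.sum_prod_type]
    have h1 : ∀ i : I, ∀ l : Fin (2 ^ K), w i l / D₀ * e (SS s (S i ∪ T i l) * θ) =
        (e (SS s (S i) * θ) / D₀) * (w i l * ∏ x ∈ T i l, e (s x * x * θ)) := by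
      intro i l
      rw [ss_union s ((hS i i.2).2.2.mono_right ((hT i i.2).2 l).1)]
      push_cast
      rw [add_mul, e_add, e_ss s (T i l)]
      ring
    simp only [h1]
    refine (norm_sum_le _ _).trans ?_
    have h2 : ∀ i : I, ‖∑ l : Fin (2 ^ K), (e (SS s (S i) * θ) / D₀) *
        (w i l * ∏ x ∈ T i l, e (s x * x * θ))‖ =
        (1 / D₀) * ‖∑ l : Fin (2 ^ K), w i l * ∏ x ∈ T i l, e (s x * x * θ)‖ := by
      intro i
      rw [← Finset.mul_sum, norm_mul, norm_div, norm_e, Complex.norm_real,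
        Real.norm_of_nonneg hD₀.le]
    rw [Finset.sum_congr rfl fun i _ => h2 i, ← Finset.mul_sum]
    have h3 := hsup (fun x => e (s x * x * θ)) (fun x => (norm_e _).le)
    rw [one_div, inv_mul_le_iff₀ hD₀, mul_one]
    exact h3
  · have h1 : ∑ l ∈ A, w' l * Complex.exp (Complex.I * ((1 / 2 * ∑ κ, U κ l : ℝ) : ℂ)) =
        (1 / D₀) * ∑ i, ∑ l, w i l *
          Complex.exp (Complex.I * (ph (fun κ => ζ i κ + ∑ x ∈ T i l, ξ x κ) : ℂ)) := by
      rw [hsum, Fintype.sum_prod_type, Finset.mul_sum]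
      refine Finset.sum_congr rfl fun i _ => ?_
      rw [Finset.mul_sum]
      refine Finset.sum_congr rfl fun l _ => ?_
      have h2 : (1 / 2 * ∑ κ, U κ (SS s (S i ∪ T i l)) : ℝ) =
          ph (fun κ => ζ i κ + ∑ x ∈ T i l, ξ x κ) := by
        unfold ph
        congr 1
        refine Finset.sum_congr rfl fun κ _ => ?_
        have h3 := hH _ ((hT i i.2).2 l).2
        rw [hU2 κ _ h3.1 h3.2.1, hφ κ i i.2 (T i l) ((hT i i.2).2 l).1, dif_pos i.2]
      rw [h2]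
      ring
    rw [h1, norm_mul, norm_div, norm_one, Complex.norm_real, Real.norm_of_nonneg hD₀.le]
    have h4 : 1 / (6 * 2 ^ k) * (113 / 100 : ℝ) ^ K =
        1 / D₀ * (1 / (6 * 2 ^ k) * (113 / 100 : ℝ) ^ K * D₀) := by
      field_simp
    rw [h4]
    exact mul_le_mul_of_nonneg_left hbig (by positivity)

end Pool.Agent.Lib.MP_6d8312_an.Q
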