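import Mathlib

/-! # A part of a dense hypergraph in which all degrees are large -/

set_option autoImplicit false

noncomputable section

namespace Pool.Agent.Lib.MP_6d8312_an.Q

theorem exists_min_degree {α : Type} [DecidableEq α] (N : ℕ) (H : Finset (Finset α))
    (h0 : ∅ ∉ H) (V : Finset α) (hV : V.Nonempty) (hH : ∀ T ∈ H, T ⊆ V)
    (h : N * V.card ≤ H.card) :
    ∃ V' : Finset α, V' ⊆ V ∧ V'.Nonempty ∧
      ∀ x ∈ V', N ≤ (H.filter (fun T => T ⊆ V' ∧ x ∈ T)).card := by
  classical
  induction hn : V.card using Nat.strong_induction_on generalizing V H with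
  | _ n ih =>
    by_cases hall : ∀ x ∈ V, N ≤ (H.filter (fun T => x ∈ T)).card
    · refine ⟨V, le_rfl, hV, ?_⟩
      intro x hx
      refine (hall x hx).trans (Finset.card_le_card ?_)
      intro T hT
      rw [Finset.mem_filter] at hT ⊢
      exact ⟨hT.1, hH T hT.1, hT.2⟩
    · push Not at hall
      obtain ⟨x, hx, hdeg⟩ := hall
      have hsplit := Finset.card_filter_add_card_filter_not (s := H) (fun T => x ∈ T)
      have hcard := Finset.card_erase_add_one hx
      have hmul : N * V.card = N * (V.erase x).card + N := by
        rw [← hcard]; ring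
      have hsub : ∀ T ∈ H.filter (fun T => ¬ x ∈ T), T ⊆ V.erase x := by
        intro T hT y hy
        rw [Finset.mem_filter] at hT
        rw [Finset.mem_erase]
        refine ⟨?_, hH T hT.1 hy⟩
        rintro rfl
        exact hT.2 hy
      have h0' : ∅ ∉ H.filter (fun T => ¬ x ∈ T) := by
        intro h1
        exact h0 (Finset.mem_filter.1 h1).1
      have hne : (V.erase x).Nonempty := by
        rw [Finset.nonempty_iff_ne_empty]
        intro hemp
        have h1 : (H.filter (fun T => ¬ x ∈ T)).card = 0 := by
          rw [Finset.card_eq_zero, Finset.eq_empty_iff_forall_notMem]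
          intro T hT
          have h2 := hsub T hT
          rw [hemp, Finset.subset_empty] at h2
          rw [h2] at hT
          exact h0' hT
        rw [hemp] at hmul
        simp only [Finset.card_empty, mul_zero, zero_add] at hmul
        omega
      obtain ⟨V', hV', hV'n, hd⟩ := ih (V.erase x).card (by omega)
        (H.filter (fun T => ¬ x ∈ T)) h0' (V.erase x) hne hsub (by omega) rfl
      refine ⟨V', hV'.trans (Finset.erase_subset _ _), hV'n, ?_⟩
      intro y hy
      refine (hd y hy).trans (Finset.card_le_card ?_)
      intro T hT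
      simp only [Finset.mem_filter] at hT ⊢
      exact ⟨hT.1.1, hT.2⟩

end Pool.Agent.Lib.MP_6d8312_an.Q
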