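import Mathlib

/-! # Random subsets -/

set_option autoImplicit false

noncomputable section

namespace Pool.Agent.Lib.MP_6d8312_an.Q

/-- The probability of the subset `Q` of `V`, when every element is chosen with probability `p`. -/
def wt {α : Type} [DecidableEq α] (p : ℝ) (V Q : Finset α) : ℝ :=
  p ^ Q.card * (1 - p) ^ (V \ Q).card

theorem wt_nonneg {α : Type} [DecidableEq α] (p : ℝ) (h0 : 0 ≤ p) (h1 : p ≤ 1)
    (V Q : Finset α) : 0 ≤ wt p V Q :=
  mul_nonneg (pow_nonneg h0 _) (pow_nonneg (sub_nonneg.2 h1) _)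

theorem sum_wt {α : Type} [DecidableEq α] (p : ℝ) (V U₁ U₂ : Finset α) (h1 : U₁ ⊆ V)
    (h2 : U₂ ⊆ V) (hd : Disjoint U₁ U₂) :
    ∑ Q ∈ V.powerset.filter (fun Q => U₁ ⊆ Q ∧ Disjoint U₂ Q), wt p V Q =
      p ^ U₁.card * (1 - p) ^ U₂.card := by
  classical
  have key := Finset.prod_add (fun x : α => if x ∉ U₂ then p else 0)
    (fun x : α => if x ∉ U₁ then 1 - p else 0) V
  have hL : ∏ x ∈ V, ((if x ∉ U₂ then p else 0) + (if x ∉ U₁ then 1 - p else 0)) =
      p ^ U₁.card * (1 - p) ^ U₂.card := by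
    have e : ∀ x ∈ V, ((if x ∉ U₂ then p else 0) + (if x ∉ U₁ then 1 - p else 0)) =
        (if x ∈ U₁ then p else 1) * (if x ∈ U₂ then 1 - p else 1) := by
      intro x _
      by_cases hx1 : x ∈ U₁
      · have hx2 : x ∉ U₂ := Finset.disjoint_left.1 hd hx1
        simp [hx1, hx2]
      · by_cases hx2 : x ∈ U₂
        · simp [hx1, hx2]
        · simp [hx1, hx2]
    rw [Finset.prod_congr rfl e, Finset.prod_mul_distrib, Finset.prod_ite_mem,
      Finset.prod_ite_mem, Finset.inter_eq_right.2 h1, Finset.inter_eq_right.2 h2,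
      Finset.prod_const, Finset.prod_const]
  rw [← hL, key, Finset.sum_filter]
  refine Finset.sum_congr rfl fun Q hQ => ?_
  rw [Finset.prod_ite_zero, Finset.prod_ite_zero, Finset.prod_const, Finset.prod_const]
  have c1 : (∀ i ∈ Q, i ∉ U₂) ↔ Disjoint U₂ Q := by
    rw [Finset.disjoint_right]
  have c2 : (∀ i ∈ V \ Q, i ∉ U₁) ↔ U₁ ⊆ Q := by
    constructor
    · intro h x hx
      by_contra hxQ
      exact h x (Finset.mem_sdiff.2 ⟨h1 hx, hxQ⟩) hx
    · intro h x hx hxU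
      exact (Finset.mem_sdiff.1 hx).2 (h hxU)
  by_cases a1 : U₁ ⊆ Q
  · by_cases a2 : Disjoint U₂ Q
    · rw [if_pos ⟨a1, a2⟩, if_pos (c1.2 a2), if_pos (c2.2 a1)]
      rfl
    · rw [if_neg (fun h => a2 h.2), if_neg (fun h => a2 (c1.1 h)), zero_mul]
  · rw [if_neg (fun h => a1 h.1), if_neg (fun h : ∀ i ∈ V \ Q, i ∉ U₁ => a1 (c2.1 h)), mul_zero]

end Pool.Agent.Lib.MP_6d8312_an.Q
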