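import Pool.Agent.Lib.MP_6d8312_an.Mg.G011
import Pool.Agent.Lib.MP_6d8312_an.Q.Weights

/-! # One pattern of signs and one size -/

set_option autoImplicit false

noncomputable section

namespace Pool.Agent.Lib.MP_6d8312_an.Q

open Classical in
/-- the signs `+1` on `P` and `-1` off `P` -/
def patternSign (P : Finset ℤ) (x : ℤ) : ℤ := if x ∈ P then 1 else -1

lemma pattern_isSign (P : Finset ℤ) : IsSign (patternSign P) := by
  intro x
  unfold patternSign
  split_ifs
  · exact Or.inl rfl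
  · exact Or.inr rfl

lemma pattern_SS {P G : Finset ℤ} {s : ℤ → ℤ} (hs : IsSign s)
    (h1 : G.filter (fun x => s x = 1) ⊆ P) (h2 : Disjoint (G.filter (fun x => ¬ s x = 1)) P) :
    SS (patternSign P) G = SS s G := by
  unfold SS
  refine Finset.sum_congr rfl fun x hx => ?_
  unfold patternSign
  by_cases hsx : s x = 1
  · rw [if_pos (h1 (Finset.mem_filter.2 ⟨hx, hsx⟩)), hsx]
  · rw [if_neg (Finset.disjoint_left.1 h2 (Finset.mem_filter.2 ⟨hx, hsx⟩)),
      (hs x).resolve_left hsx]

theorem signed_pattern {E : Set ℤ} (hE : Dissociate E) (k R D : ℕ) (Λ : Set ℤ) (F : Finset ℤ)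
    (hF : (F : Set ℤ) ⊆ E)
    (h : (D * (k + 1) * 2 ^ k + 2 * R + 1) * F.card < (Part Λ F k).ncard) :
    ∃ (s : ℤ → ℤ) (j : ℕ) (H : Finset (Finset ℤ)), IsSign s ∧ j ≤ k ∧
      (∀ G ∈ H, G ⊆ F ∧ G.card = j ∧ SS s G ∈ Λ ∧ (R : ℤ) < |SS s G|) ∧
      D * F.card ≤ H.card := by
  classical
  have rep : ∀ l : ℤ, ∃ (G : Finset ℤ) (s : ℤ → ℤ), l ∈ Part Λ F k →
      (G ⊆ F ∧ G.card ≤ k ∧ IsSign s ∧ l = SS s G) := by
    intro l
    by_cases hl : l ∈ Part Λ F k
    · obtain ⟨_, _, G, s, hG, hGk, hs, hls⟩ := hl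
      exact ⟨G, s, fun _ => ⟨fun x hx => by exact_mod_cast hG (by exact_mod_cast hx), hGk, hs, hls⟩⟩
    · exact ⟨∅, 1, fun h' => absurd h' hl⟩
  choose G s hG using rep
  set PF : Finset ℤ := (part_finite Λ F k).toFinset with hPF
  have hPFmem : ∀ l, l ∈ PF ↔ l ∈ Part Λ F k := fun l => Set.Finite.mem_toFinset _
  have hcard : (Part Λ F k).ncard = PF.card := Set.ncard_eq_toFinset_card _ _
  set L : Finset ℤ := PF.filter (fun l => (R : ℤ) < |l|) with hL
  have hLmem : ∀ l, l ∈ L ↔ l ∈ Part Λ F k ∧ (R : ℤ) < |l| := by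
    intro l
    rw [hL, Finset.mem_filter, hPFmem]
  -- the set `F` is not empty
  have hFne : 1 ≤ F.card := by
    by_contra hF0
    have hF0' : F = ∅ := Finset.card_eq_zero.1 (by omega)
    have : PF = ∅ := by
      refine Finset.eq_empty_of_forall_notMem fun l hl => ?_
      have hl' := (hPFmem l).1 hl
      obtain ⟨h1, _, _, h4⟩ := hG l hl'
      rw [hF0', Finset.subset_empty] at h1
      rw [h1] at h4
      exact hl'.2.1 (by rw [h4]; simp [SS])
    rw [hcard, this] at h
    simp at h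
  have hsub : PF ⊆ L ∪ Finset.Icc (-(R : ℤ)) R := by
    intro l hl
    by_cases hR : (R : ℤ) < |l|
    · exact Finset.mem_union_left _ ((hLmem l).2 ⟨(hPFmem l).1 hl, hR⟩)
    · refine Finset.mem_union_right _ (Finset.mem_Icc.2 ?_)
      exact abs_le.1 (not_lt.1 hR)
  have hIcc : (Finset.Icc (-(R : ℤ)) R).card = 2 * R + 1 := by
    rw [Int.card_Icc]
    omega
  have hLcard : D * (k + 1) * 2 ^ k * F.card ≤ L.card := by
    have h1 := (Finset.card_le_card hsub).trans (Finset.card_union_le _ _)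
    rw [hIcc] at h1
    rw [hcard] at h
    have h2 : D * (k + 1) * 2 ^ k * F.card + (2 * R + 1) ≤
        (D * (k + 1) * 2 ^ k + 2 * R + 1) * F.card := by
      have : (2 * R + 1) * 1 ≤ (2 * R + 1) * F.card := Nat.mul_le_mul_left _ hFne
      calc D * (k + 1) * 2 ^ k * F.card + (2 * R + 1)
          ≤ D * (k + 1) * 2 ^ k * F.card + (2 * R + 1) * F.card := by omega
        _ = (D * (k + 1) * 2 ^ k + 2 * R + 1) * F.card := by ring
    omega
  -- double counting
  let U1 : ℤ → Finset ℤ := fun l => (G l).filter (fun x => s l x = 1)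
  let U2 : ℤ → Finset ℤ := fun l => (G l).filter (fun x => ¬ s l x = 1)
  let cons : Finset ℤ → ℤ → Prop := fun P l => U1 l ⊆ P ∧ Disjoint (U2 l) P
  let c : Finset ℤ → ℕ → Finset ℤ := fun P j => L.filter (fun l => cons P l ∧ (G l).card = j)
  have main : ∃ P ∈ F.powerset, ∃ j ∈ Finset.range (k + 1), D * F.card ≤ (c P j).card := by
    by_contra hcon
    push Not at hcon
    have hw1 : ∑ P ∈ F.powerset, wt (1 / 2) F P = 1 := by
      have := sum_wt (1 / 2) F ∅ ∅ (Finset.empty_subset _) (Finset.empty_subset _)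
        (Finset.disjoint_empty_left _)
      simpa using this
    have hw0 : ∀ P, 0 ≤ wt (1 / 2) F P := fun P => wt_nonneg _ (by norm_num) (by norm_num) _ _
    have e1 : ∑ P ∈ F.powerset, ∑ j ∈ Finset.range (k + 1), wt (1 / 2) F P * ((c P j).card : ℝ) ≤
        (k + 1) * ((D * F.card : ℕ) - 1 : ℝ) := by
      calc ∑ P ∈ F.powerset, ∑ j ∈ Finset.range (k + 1), wt (1 / 2) F P * ((c P j).card : ℝ)
          ≤ ∑ P ∈ F.powerset, ∑ _j ∈ Finset.range (k + 1),
            wt (1 / 2) F P * ((D * F.card : ℕ) - 1 : ℝ) := by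
            refine Finset.sum_le_sum fun P hP => Finset.sum_le_sum fun j hj => ?_
            refine mul_le_mul_of_nonneg_left ?_ (hw0 P)
            have h1 : (c P j).card + 1 ≤ D * F.card := hcon P hP j hj
            have h2 : (((c P j).card + 1 : ℕ) : ℝ) ≤ ((D * F.card : ℕ) : ℝ) := Nat.cast_le.2 h1
            rw [Nat.cast_add, Nat.cast_one] at h2
            linarith
        _ = (∑ P ∈ F.powerset, wt (1 / 2) F P) * ((k + 1) * ((D * F.card : ℕ) - 1 : ℝ)) := by
            rw [Finset.sum_mul]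
            refine Finset.sum_congr rfl fun P _ => ?_
            rw [Finset.sum_const, Finset.card_range, nsmul_eq_mul]
            push_cast
            ring
        _ = (k + 1) * ((D * F.card : ℕ) - 1 : ℝ) := by rw [hw1, one_mul]
    have e2 : ∑ P ∈ F.powerset, ∑ j ∈ Finset.range (k + 1), wt (1 / 2) F P * ((c P j).card : ℝ) =
        ∑ l ∈ L, ∑ P ∈ F.powerset.filter (fun P => cons P l), wt (1 / 2) F P := by
      have e3 : ∀ P ∈ F.powerset, ∑ j ∈ Finset.range (k + 1),
          wt (1 / 2) F P * ((c P j).card : ℝ) =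
          ∑ l ∈ L, if cons P l then wt (1 / 2) F P else 0 := by
        intro P _
        rw [← Finset.sum_filter, ← Finset.mul_sum]
        rw [Finset.sum_const, nsmul_eq_mul, mul_comm]
        congr 1
        rw [← Nat.cast_sum]
        congr 1
        rw [Finset.card_eq_sum_card_fiberwise (f := fun l => (G l).card)
          (t := Finset.range (k + 1))]
        · refine Finset.sum_congr rfl fun j _ => ?_
          congr 1
          rw [Finset.filter_filter]
        · intro l hl
          have hl' := (hLmem l).1 (Finset.mem_filter.1 (Finset.mem_coe.1 hl)).1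
          have := (hG l hl'.1).2.1
          rw [Finset.mem_coe, Finset.mem_range]
          exact Nat.lt_succ_iff.2 this
      rw [Finset.sum_congr rfl e3, Finset.sum_comm]
      refine Finset.sum_congr rfl fun l _ => ?_
      rw [Finset.sum_filter]
    have e4 : (L.card : ℝ) * (1 / 2) ^ k ≤
        ∑ l ∈ L, ∑ P ∈ F.powerset.filter (fun P => cons P l), wt (1 / 2) F P := by
      rw [← nsmul_eq_mul, ← Finset.sum_const]
      refine Finset.sum_le_sum fun l hl => ?_
      have hl' := (hLmem l).1 hl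
      obtain ⟨g1, g2, _, _⟩ := hG l hl'.1
      have h1 := sum_wt (1 / 2) F (U1 l) (U2 l) ((Finset.filter_subset _ _).trans g1)
        ((Finset.filter_subset _ _).trans g1) (Finset.disjoint_filter_filter_not _ _ _)
      rw [show (1 - 1 / 2 : ℝ) = 1 / 2 by norm_num, ← pow_add,
        Finset.card_filter_add_card_filter_not] at h1
      calc ((1 : ℝ) / 2) ^ k ≤ (1 / 2) ^ (G l).card :=
            pow_le_pow_of_le_one (by norm_num) (by norm_num) g2
        _ = _ := h1.symm
    have e5 : ((D * F.card : ℕ) : ℝ) * (k + 1) ≤ (L.card : ℝ) * (1 / 2) ^ k := by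
      have h1 : ((D * (k + 1) * 2 ^ k * F.card : ℕ) : ℝ) ≤ (L.card : ℝ) := Nat.cast_le.2 hLcard
      have h2 : ((D * F.card : ℕ) : ℝ) * (k + 1) =
          ((D * (k + 1) * 2 ^ k * F.card : ℕ) : ℝ) * (1 / 2) ^ k := by
        push_cast
        have : (2 : ℝ) ^ k * (1 / 2) ^ k = 1 := by
          rw [← mul_pow]
          norm_num
        calc (D : ℝ) * F.card * (k + 1) = (D : ℝ) * F.card * (k + 1) * ((2 : ℝ) ^ k * (1 / 2) ^ k) := by
              rw [this, mul_one]
          _ = _ := by ring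
      rw [h2]
      exact mul_le_mul_of_nonneg_right h1 (by positivity)
    have e6 := e5.trans (e4.trans (e2 ▸ e1))
    have hk : (0 : ℝ) < k + 1 := by positivity
    nlinarith
  obtain ⟨P, hP, j, hj, hc⟩ := main
  have hsame : ∀ l ∈ c P j, SS (patternSign P) (G l) = l := by
    intro l hl
    obtain ⟨h1, h2, _⟩ := Finset.mem_filter.1 hl
    have hl' := (hLmem l).1 h1
    obtain ⟨_, _, g3, g4⟩ := hG l hl'.1
    rw [pattern_SS g3 h2.1 h2.2, ← g4]
  refine ⟨patternSign P, j, (c P j).image G, pattern_isSign P,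
    Nat.lt_succ_iff.1 (Finset.mem_range.1 hj), ?_, ?_⟩
  · intro G' hG'
    obtain ⟨l, hl, rfl⟩ := Finset.mem_image.1 hG'
    obtain ⟨h1, _, h3⟩ := Finset.mem_filter.1 hl
    have hl' := (hLmem l).1 h1
    obtain ⟨g1, _, _, _⟩ := hG l hl'.1
    rw [hsame l hl]
    exact ⟨g1, h3, hl'.1.1, hl'.2⟩
  · rw [Finset.card_image_of_injOn]
    · exact hc
    · intro l hl l' hl' heq
      rw [← hsame l hl, ← hsame l' hl', heq]

end Pool.Agent.Lib.MP_6d8312_an.Q
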