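import Pool.Agent.Lib.MP_6d8312_an.Mg.G012
import Pool.Agent.Lib.MP_6d8312_an.Q.GrowthDense
import Pool.Agent.Lib.MP_6d8312_an.Mg.G009

/-! # The dichotomy for signed sums of a dissociate set -/

set_option autoImplicit false

noncomputable section

namespace Pool.Agent.Lib.MP_6d8312_an.Q

theorem dichotomy {E : Set ℤ} (hE : Dissociate E) (k : ℕ) (Λ : Set ℤ)
    (hΛ : Λ ⊆ SignedSums E k) : SidonSet Λ ∨ AnalyticitySet Λ := by
  by_cases h : ∃ C : ℕ, ∀ F : Finset ℤ, (F : Set ℤ) ⊆ E → (Part Λ F k).ncard ≤ C * F.card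
  · left
    obtain ⟨C, hC⟩ := h
    obtain ⟨C', hC'⟩ := finite_interp hE k C Λ hΛ hC
    exact sidon_of_interp Λ C' hC'
  · right
    push Not at h
    exact analyticitySet_of_growth (growth_of_dense hE k Λ h)

end Pool.Agent.Lib.MP_6d8312_an.Q
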