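import Pool.Agent.Lib.MP_6d8312_an.Q.Cs

/-! # The second moment -/

set_option autoImplicit false

noncomputable section

namespace Pool.Agent.Lib.MP_6d8312_an.Q

/-- The square of the Hilbert-Schmidt norm of the Gram matrix. -/
def HS {K d : ℕ} (X : Fin d → Fin K → ZMod 8) : ℝ :=
  ∑ l, ∑ l', ∏ κ, (1 + (1 / 2) * cs (X l κ - X l' κ)) ^ 2

private theorem second_sum_shift (x : ZMod 8) : ∑ z : ZMod 8, cs (z + x) = 0 := by
  rw [← sum_cs]
  exact Equiv.sum_comp (Equiv.addRight x) cs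

private theorem second_sum_mul (x x' : ZMod 8) :
    ∑ z : ZMod 8, cs (z + x) * cs (z + x') = 4 * cs (x - x') := by
  rw [← sum_cs_mul, ← Equiv.sum_comp (Equiv.addRight x') (fun z => cs (z + (x - x')) * cs z)]
  refine Finset.sum_congr rfl fun z _ => ?_
  simp only [Equiv.coe_addRight]
  congr 2
  ring

private theorem second_one (x x' : ZMod 8) :
    ∑ z : ZMod 8, (1 - Complex.I * (cs (z + x) : ℂ)) * (1 + Complex.I * (cs (z + x') : ℂ)) =
      8 * ((1 + (1 / 2) * cs (x - x') : ℝ) : ℂ) := by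
  have h1 : ∀ z : ZMod 8, (1 - Complex.I * (cs (z + x) : ℂ)) * (1 + Complex.I * (cs (z + x') : ℂ)) =
      1 + Complex.I * (cs (z + x') : ℂ) - Complex.I * (cs (z + x) : ℂ) +
        ((cs (z + x) * cs (z + x') : ℝ) : ℂ) := by
    intro z
    push_cast
    linear_combination (-(cs (z + x) : ℂ) * (cs (z + x') : ℂ)) * Complex.I_sq
  rw [Finset.sum_congr rfl fun z _ => h1 z, Finset.sum_add_distrib, Finset.sum_sub_distrib,
    Finset.sum_add_distrib, ← Finset.mul_sum, ← Finset.mul_sum, ← Complex.ofReal_sum,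
    ← Complex.ofReal_sum, ← Complex.ofReal_sum, second_sum_shift, second_sum_shift,
    second_sum_mul]
  simp only [Finset.sum_const, Finset.card_univ, ZMod.card]
  push_cast
  ring

private theorem second_conj_om {K : ℕ} (X : Fin K → ZMod 8) :
    (starRingEnd ℂ) (om X) = ∏ κ, (1 + Complex.I * (cs (X κ) : ℂ)) := by
  unfold om
  rw [map_prod]
  refine Finset.prod_congr rfl fun κ _ => ?_
  rw [map_sub, map_one, map_mul, Complex.conj_I, Complex.conj_ofReal]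
  ring

theorem avg_om_mul {K : ℕ} (X X' : Fin K → ZMod 8) :
    ∑ Z : Fin K → ZMod 8, om (fun κ => Z κ + X κ) *
      (starRingEnd ℂ) (om (fun κ => Z κ + X' κ)) =
      8 ^ K * ((∏ κ, (1 + (1 / 2) * cs (X κ - X' κ)) : ℝ) : ℂ) := by
  have h1 : ∀ Z : Fin K → ZMod 8, om (fun κ => Z κ + X κ) *
      (starRingEnd ℂ) (om (fun κ => Z κ + X' κ)) =
      ∏ κ, ((1 - Complex.I * (cs (Z κ + X κ) : ℂ)) * (1 + Complex.I * (cs (Z κ + X' κ) : ℂ))) := by
    intro Z
    rw [second_conj_om, Finset.prod_mul_distrib]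
    rfl
  rw [Finset.sum_congr rfl fun Z _ => h1 Z]
  have h2 := Finset.prod_univ_sum (fun _ : Fin K => (Finset.univ : Finset (ZMod 8)))
    (fun κ z => (1 - Complex.I * (cs (z + X κ) : ℂ)) * (1 + Complex.I * (cs (z + X' κ) : ℂ)))
  rw [Fintype.piFinset_univ] at h2
  rw [← h2, Finset.prod_congr rfl fun κ _ => second_one (X κ) (X' κ), Finset.prod_mul_distrib,
    Finset.prod_const, Finset.card_univ, Fintype.card_fin, Complex.ofReal_prod]

private theorem second_sq {K d : ℕ} (X : Fin d → Fin K → ZMod 8) (y : Fin d → ℂ)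
    (hy : ∀ l, ‖y l‖ ≤ 1) :
    ∑ Z : Fin K → ZMod 8, ‖∑ l, om (fun κ => Z κ + X l κ) * y l‖ ^ 2 ≤
      8 ^ K * ∑ l, ∑ l', ∏ κ, (1 + (1 / 2) * cs (X l κ - X l' κ)) := by
  have hG : ∀ l l', 0 ≤ ∏ κ, (1 + (1 / 2) * cs (X l κ - X l' κ)) := by
    intro l l'
    refine Finset.prod_nonneg fun κ _ => ?_
    have := (abs_le.1 (abs_cs_le (X l κ - X l' κ))).1
    linarith
  have h1 : ((∑ Z : Fin K → ZMod 8, ‖∑ l, om (fun κ => Z κ + X l κ) * y l‖ ^ 2 : ℝ) : ℂ) =
      ∑ l, ∑ l', (y l * (starRingEnd ℂ) (y l')) *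
        (8 ^ K * ((∏ κ, (1 + (1 / 2) * cs (X l κ - X l' κ)) : ℝ) : ℂ)) := by
    rw [Complex.ofReal_sum]
    have h2 : ∀ Z : Fin K → ZMod 8,
        ((‖∑ l, om (fun κ => Z κ + X l κ) * y l‖ ^ 2 : ℝ) : ℂ) =
        ∑ l, ∑ l', (y l * (starRingEnd ℂ) (y l')) * (om (fun κ => Z κ + X l κ) *
          (starRingEnd ℂ) (om (fun κ => Z κ + X l' κ))) := by
      intro Z
      rw [Complex.ofReal_pow, ← Complex.mul_conj', map_sum, Finset.sum_mul_sum]
      refine Finset.sum_congr rfl fun l _ => Finset.sum_congr rfl fun l' _ => ?_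
      rw [map_mul]
      ring
    rw [Finset.sum_congr rfl fun Z _ => h2 Z, Finset.sum_comm]
    refine Finset.sum_congr rfl fun l _ => ?_
    rw [Finset.sum_comm]
    refine Finset.sum_congr rfl fun l' _ => ?_
    rw [← Finset.mul_sum, avg_om_mul]
  have h3 : ‖((∑ Z : Fin K → ZMod 8, ‖∑ l, om (fun κ => Z κ + X l κ) * y l‖ ^ 2 : ℝ) : ℂ)‖ ≤
      8 ^ K * ∑ l, ∑ l', ∏ κ, (1 + (1 / 2) * cs (X l κ - X l' κ)) := by
    rw [h1, Finset.mul_sum]
    refine (norm_sum_le _ _).trans (Finset.sum_le_sum fun l _ => ?_)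
    rw [Finset.mul_sum]
    refine (norm_sum_le _ _).trans (Finset.sum_le_sum fun l' _ => ?_)
    rw [norm_mul, norm_mul, norm_mul, RCLike.norm_conj, norm_pow, Complex.norm_ofNat,
      Complex.norm_real, Real.norm_of_nonneg (hG l l')]
    have h4 : ‖y l‖ * ‖y l'‖ ≤ 1 := mul_le_one₀ (hy l) (norm_nonneg _) (hy l')
    exact mul_le_of_le_one_left (mul_nonneg (by positivity) (hG l l')) h4
  rwa [Complex.norm_real, Real.norm_of_nonneg (Finset.sum_nonneg fun Z _ => by positivity)] at h3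

theorem second_moment {K d : ℕ} (hd : 1 ≤ d) (X : Fin d → Fin K → ZMod 8) (y : Fin d → ℂ)
    (hy : ∀ l, ‖y l‖ ≤ 1) (s : ℝ) (hs : 0 < s) :
    ∑ Z : Fin K → ZMod 8, ‖∑ l, om (fun κ => Z κ + X l κ) * y l‖ ≤
      8 ^ K * (HS X / (4 * s ^ 3 * d) + 3 / 4 * s * d) := by
  have hd0 : (0 : ℝ) < d := by exact_mod_cast hd
  have h1 := second_sq X y hy
  have h2 : ∑ l, ∑ l', ∏ κ, (1 + (1 / 2) * cs (X l κ - X l' κ)) ≤
      (HS X / s ^ 2 + s ^ 2 * d ^ 2) / 2 := by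
    have h3 : ∀ l l', ∏ κ, (1 + (1 / 2) * cs (X l κ - X l' κ)) ≤
        ((∏ κ, (1 + (1 / 2) * cs (X l κ - X l' κ)) ^ 2) / s ^ 2 + s ^ 2) / 2 := by
      intro l l'
      rw [Finset.prod_pow]
      set g := ∏ κ, (1 + (1 / 2) * cs (X l κ - X l' κ)) with hg
      have h5 : (g / s - s) ^ 2 = g ^ 2 / s ^ 2 - 2 * g + s ^ 2 := by
        field_simp
        ring
      nlinarith [sq_nonneg (g / s - s)]
    calc ∑ l, ∑ l', ∏ κ, (1 + (1 / 2) * cs (X l κ - X l' κ))
        ≤ ∑ l : Fin d, ∑ l' : Fin d,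
          ((∏ κ, (1 + (1 / 2) * cs (X l κ - X l' κ)) ^ 2) / s ^ 2 + s ^ 2) / 2 :=
          Finset.sum_le_sum fun l _ => Finset.sum_le_sum fun l' _ => h3 l l'
      _ = (HS X / s ^ 2 + s ^ 2 * d ^ 2) / 2 := by
          unfold HS
          simp only [← Finset.sum_div, Finset.sum_add_distrib, Finset.sum_const,
            Finset.card_univ, Fintype.card_fin, nsmul_eq_mul]
          ring
  have h4 : ∑ Z : Fin K → ZMod 8, ‖∑ l, om (fun κ => Z κ + X l κ) * y l‖ ^ 2 ≤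
      8 ^ K * ((HS X / s ^ 2 + s ^ 2 * d ^ 2) / 2) :=
    h1.trans (mul_le_mul_of_nonneg_left h2 (by positivity))
  have h5 : ∀ Z : Fin K → ZMod 8, ‖∑ l, om (fun κ => Z κ + X l κ) * y l‖ ≤
      (‖∑ l, om (fun κ => Z κ + X l κ) * y l‖ ^ 2 / (s * d) + s * d) / 2 := by
    intro Z
    set p := ‖∑ l, om (fun κ => Z κ + X l κ) * y l‖ with hp
    have hsd : 0 < s * d := by positivity
    have h6 : p ^ 2 / (s * d) + s * d - 2 * p = (p - s * d) ^ 2 / (s * d) := by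
      field_simp
      ring
    have h7 : 0 ≤ (p - s * d) ^ 2 / (s * d) := by positivity
    linarith
  calc ∑ Z : Fin K → ZMod 8, ‖∑ l, om (fun κ => Z κ + X l κ) * y l‖
      ≤ ∑ Z : Fin K → ZMod 8,
        (‖∑ l, om (fun κ => Z κ + X l κ) * y l‖ ^ 2 / (s * d) + s * d) / 2 :=
        Finset.sum_le_sum fun Z _ => h5 Z
    _ = ((∑ Z : Fin K → ZMod 8, ‖∑ l, om (fun κ => Z κ + X l κ) * y l‖ ^ 2) / (s * d) +
        8 ^ K * (s * d)) / 2 := by
        rw [← Finset.sum_div, Finset.sum_add_distrib, ← Finset.sum_div, Finset.sum_const,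
          Finset.card_univ, Fintype.card_fun, ZMod.card, Fintype.card_fin, nsmul_eq_mul]
        push_cast
        ring
    _ ≤ ((8 ^ K * ((HS X / s ^ 2 + s ^ 2 * d ^ 2) / 2)) / (s * d) + 8 ^ K * (s * d)) / 2 := by
        have h8 := div_le_div_of_nonneg_right h4 (by positivity : 0 ≤ s * (d : ℝ))
        linarith
    _ = 8 ^ K * (HS X / (4 * s ^ 3 * d) + 3 / 4 * s * d) := by
        field_simp
        ring

end Pool.Agent.Lib.MP_6d8312_an.Q
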